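import Mathlib

-- merged part: Pool.Agent.Work.MP_8e7914_an.Setup
section
open MeasureTheory Set Complex ComplexConjugate
open scoped InnerProductSpace BoundedContinuousFunction Real

namespace Pool.Agent.Work.MP_8e7914_an

noncomputable section

abbrev mu : Measure ℝ := volume.restrict (Ioo (0 : ℝ) 1)

abbrev HH : Type := Lp ℂ 2 (volume.restrict (Ioo (0 : ℝ) 1))

abbrev BB : Type := ℝ →ᵇ ℂ

instance : IsProbabilityMeasure mu := ⟨by simp⟩

/-- inclusion of bounded continuous functions in L2 -/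
def io : BB →L[ℂ] HH := BoundedContinuousFunction.toLp 2 mu ℂ

lemma coe_io (F : BB) : io F =ᵐ[mu] F := BoundedContinuousFunction.coeFn_toLp 2 mu ℂ F

lemma norm_io_le (F : BB) : ‖io F‖ ≤ ‖F‖ := by
  have h := BoundedContinuousFunction.toLp_norm_le (E := ℂ) (p := 2) (𝕜 := ℂ) mu
  have h1 : measureUnivNNReal mu = 1 := by simp [measureUnivNNReal]
  rw [h1] at h
  simp only [NNReal.coe_one, Real.one_rpow] at h
  simpa using (io.le_of_opNorm_le h F)

/-- multiplication by the indicator of a measurable set -/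
def PS (A : Set ℝ) (hA : MeasurableSet A) : HH →L[ℂ] HH :=
  LinearMap.mkContinuous
    { toFun := fun f => ((Lp.memLp f).indicator hA).toLp (A.indicator f)
      map_add' := fun f g => by
        apply Lp.ext
        filter_upwards [((Lp.memLp (f + g)).indicator hA).coeFn_toLp,
          ((Lp.memLp f).indicator hA).coeFn_toLp, ((Lp.memLp g).indicator hA).coeFn_toLp,
          Lp.coeFn_add f g, Lp.coeFn_add (((Lp.memLp f).indicator hA).toLp (A.indicator f))
            (((Lp.memLp g).indicator hA).toLp (A.indicator g))] with x h1 h2 h3 h4 h5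
        rw [h1, h5, Pi.add_apply, h2, h3]
        by_cases hx : x ∈ A
        · simp only [indicator_of_mem hx, h4, Pi.add_apply]
        · simp only [indicator_of_notMem hx, add_zero]
      map_smul' := fun c f => by
        apply Lp.ext
        filter_upwards [((Lp.memLp (c • f)).indicator hA).coeFn_toLp,
          ((Lp.memLp f).indicator hA).coeFn_toLp,
          Lp.coeFn_smul c f, Lp.coeFn_smul c (((Lp.memLp f).indicator hA).toLp (A.indicator f))]
          with x h1 h2 h4 h5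
        rw [h1, RingHom.id_apply, h5, Pi.smul_apply, h2]
        by_cases hx : x ∈ A
        · simp only [indicator_of_mem hx, h4, Pi.smul_apply]
        · simp only [indicator_of_notMem hx, smul_zero] }
    1 (fun f => by
      rw [one_mul]
      apply Lp.norm_le_norm_of_ae_le
      filter_upwards [((Lp.memLp f).indicator hA).coeFn_toLp] with x h1
      simp only [LinearMap.coe_mk, AddHom.coe_mk]
      rw [h1]
      exact norm_indicator_le_norm_self _ _)

lemma coe_PS (A : Set ℝ) (hA : MeasurableSet A) (f : HH) : PS A hA f =ᵐ[mu] A.indicator f :=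
  ((Lp.memLp f).indicator hA).coeFn_toLp

/-- the projection onto L2(0, ξ) -/
def P (ξ : ℝ) : HH →L[ℂ] HH := PS (Iio ξ) measurableSet_Iio

lemma coe_P (ξ : ℝ) (f : HH) : P ξ f =ᵐ[mu] (Iio ξ).indicator f := coe_PS _ _ f

lemma norm_P_le (ξ : ℝ) (f : HH) : ‖P ξ f‖ ≤ ‖f‖ := by
  apply Lp.norm_le_norm_of_ae_le
  filter_upwards [coe_P ξ f] with x h1
  rw [h1]
  exact norm_indicator_le_norm_self _ _

lemma opNorm_P_le (ξ : ℝ) : ‖P ξ‖ ≤ 1 :=
  ContinuousLinearMap.opNorm_le_bound _ zero_le_one fun f => by simpa using norm_P_le ξ f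

lemma P_P (ξ : ℝ) (f : HH) : P ξ (P ξ f) = P ξ f := by
  apply Lp.ext
  filter_upwards [coe_P ξ f, coe_P ξ (P ξ f)] with x h1 h2
  rw [h2]
  by_cases hx : x ∈ Iio ξ
  · rw [indicator_of_mem hx]
  · rw [indicator_of_notMem hx, h1, indicator_of_notMem hx]

lemma inner_P (ξ : ℝ) (f g : HH) : ⟪P ξ f, g⟫_ℂ = ⟪f, P ξ g⟫_ℂ := by
  rw [L2.inner_def, L2.inner_def]
  apply integral_congr_ae
  filter_upwards [coe_P ξ f, coe_P ξ g] with x h1 h2
  rw [h1, h2]
  by_cases hx : x ∈ Iio ξ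
  · simp only [indicator_of_mem hx]
  · simp only [indicator_of_notMem hx, inner_zero_left, inner_zero_right]

lemma inner_P_eq_integral {ξ : ℝ} (hξ : ξ ∈ Icc (0 : ℝ) 1) (f g : HH) :
    ⟪f, P ξ g⟫_ℂ = ∫ x in (0 : ℝ)..ξ, conj (f x) * g x := by
  rw [L2.inner_def, intervalIntegral.integral_of_le hξ.1, integral_Ioc_eq_integral_Ioo]
  have h1 : ∫ x, ⟪f x, P ξ g x⟫_ℂ ∂mu =
      ∫ x, (Iio ξ).indicator (fun x => conj (f x) * g x) x ∂mu := by
    apply integral_congr_ae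
    filter_upwards [coe_P ξ g] with x h2
    rw [h2]
    by_cases hx : x ∈ Iio ξ
    · simp only [indicator_of_mem hx, RCLike.inner_apply, mul_comm]
    · simp only [indicator_of_notMem hx, inner_zero_right]
  rw [h1, integral_indicator measurableSet_Iio, Measure.restrict_restrict measurableSet_Iio]
  congr 2
  ext x
  simp only [mem_inter_iff, mem_Iio, mem_Ioo]
  exact ⟨fun h => ⟨h.2.1, h.1⟩, fun h => ⟨h.2, h.1, h.2.trans_le hξ.2⟩⟩

/-- transfer an a.e. property for mu to an interval integral congruence -/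
lemma integral_congr_mu {ξ : ℝ} (hξ : ξ ∈ Icc (0 : ℝ) 1) {F G : ℝ → ℂ} (h : F =ᵐ[mu] G) :
    ∫ x in (0 : ℝ)..ξ, F x = ∫ x in (0 : ℝ)..ξ, G x := by
  rw [intervalIntegral.integral_of_le hξ.1, intervalIntegral.integral_of_le hξ.1,
    integral_Ioc_eq_integral_Ioo, integral_Ioc_eq_integral_Ioo]
  apply integral_congr_ae
  exact ae_restrict_of_ae_restrict_of_subset (Ioo_subset_Ioo_right hξ.2) h

lemma inner_io_P {ξ : ℝ} (hξ : ξ ∈ Icc (0 : ℝ) 1) (F : BB) (g : HH) :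
    ⟪io F, P ξ g⟫_ℂ = ∫ x in (0 : ℝ)..ξ, conj (F x) * g x := by
  rw [inner_P_eq_integral hξ]
  apply integral_congr_mu hξ
  filter_upwards [coe_io F] with x hx
  rw [hx]

lemma inner_io_P_io {ξ : ℝ} (hξ : ξ ∈ Icc (0 : ℝ) 1) (F G : BB) :
    ⟪io F, P ξ (io G)⟫_ℂ = ∫ x in (0 : ℝ)..ξ, conj (F x) * G x := by
  rw [inner_io_P hξ]
  apply integral_congr_mu hξ
  filter_upwards [coe_io G] with x hx
  rw [hx]

lemma P_one (f : HH) : P 1 f = f := by
  apply Lp.ext
  filter_upwards [coe_P 1 f, ae_restrict_mem measurableSet_Ioo] with x h1 h2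
  rw [h1, indicator_of_mem (show x ∈ Iio (1 : ℝ) from h2.2)]

lemma P_zero (f : HH) : P 0 f = 0 := by
  apply Lp.ext
  filter_upwards [coe_P 0 f, ae_restrict_mem measurableSet_Ioo,
    Lp.coeFn_zero ℂ 2 mu] with x h1 h2 h3
  rw [h1, h3, indicator_of_notMem (show x ∉ Iio (0 : ℝ) from not_lt.2 h2.1.le)]
  rfl

/-- the exponential functions -/
def EE (m : ℤ) : BB :=
  BoundedContinuousFunction.ofNormedAddCommGroup (fun x : ℝ => exp (2 * π * I * m * x))
    (by fun_prop) 1 (fun x => by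
      have : (2 * π * I * m * x : ℂ) = ((2 * π * m * x : ℝ) : ℂ) * I := by push_cast; ring
      rw [this, Complex.norm_exp_ofReal_mul_I])

lemma EE_apply (m : ℤ) (x : ℝ) : EE m x = exp (2 * π * I * m * x) := rfl

lemma norm_EE_apply (m : ℤ) (x : ℝ) : ‖EE m x‖ = 1 := by
  have : (2 * π * I * m * x : ℂ) = ((2 * π * m * x : ℝ) : ℂ) * I := by push_cast; ring
  rw [EE_apply, this, Complex.norm_exp_ofReal_mul_I]

lemma norm_EE_le (m : ℤ) : ‖EE m‖ ≤ 1 :=
  (BoundedContinuousFunction.norm_le zero_le_one).2 fun x => (norm_EE_apply m x).le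

lemma EE_zero (x : ℝ) : EE 0 x = 1 := by simp [EE_apply]

lemma conj_EE (m : ℤ) (x : ℝ) : conj (EE m x) = EE (-m) x := by
  rw [EE_apply, EE_apply, ← Complex.exp_conj]
  congr 1
  simp [map_ofNat]

lemma EE_add (m k : ℤ) (x : ℝ) : EE (m + k) x = EE m x * EE k x := by
  rw [EE_apply, EE_apply, EE_apply, ← Complex.exp_add]
  congr 1
  push_cast
  ring

lemma EE_neg_arg (m : ℤ) (x : ℝ) : EE m (-x) = EE (-m) x := by
  rw [EE_apply, EE_apply]
  congr 1
  push_cast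
  ring

lemma EE_sub_arg (m : ℤ) (x t : ℝ) : EE m (x - t) = EE m x * EE (-m) t := by
  rw [EE_apply, EE_apply, EE_apply, ← Complex.exp_add]
  congr 1
  push_cast
  ring

lemma EE_at_zero (m : ℤ) : EE m 0 = 1 := by simp [EE_apply]

lemma EE_at_one (m : ℤ) : EE m 1 = 1 := by
  rw [EE_apply]
  have := Complex.exp_int_mul_two_pi_mul_I m
  rw [← this]
  congr 1
  push_cast
  ring

lemma integral_EE {m : ℤ} (hm : m ≠ 0) (ξ : ℝ) :
    ∫ x in (0 : ℝ)..ξ, EE m x = (EE m ξ - 1) / (2 * π * I * m) := by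
  have hc : (2 * π * I * m : ℂ) ≠ 0 := by
    have : (m : ℂ) ≠ 0 := by exact_mod_cast hm
    simp [Real.pi_ne_zero, this]
  simp only [EE_apply]
  rw [integral_exp_mul_complex hc]
  simp

/-- the Fourier system -/
def e (m : ℤ) : HH := io (EE m)

lemma norm_e_le (m : ℤ) : ‖e m‖ ≤ 1 := (norm_io_le _).trans (norm_EE_le m)

lemma inner_e_P_e {ξ : ℝ} (hξ : ξ ∈ Icc (0 : ℝ) 1) {a b : ℤ} (hab : a ≠ b) :
    ⟪e a, P ξ (e b)⟫_ℂ = (EE (b - a) ξ - 1) / (2 * π * I * ((b - a : ℤ) : ℂ)) := by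
  rw [e, e, inner_io_P_io hξ, ← integral_EE (sub_ne_zero.2 hab.symm)]
  congr 1
  funext x
  rw [conj_EE, ← EE_add]
  congr 2
  ring

lemma orthonormal_e : Orthonormal ℂ e := by
  rw [orthonormal_iff_ite]
  intro a b
  by_cases hab : a = b
  · subst hab
    rw [if_pos rfl, ← P_one (e a), inner_P, P_P, e, inner_io_P_io (by simp)]
    simp only [conj_EE, ← EE_add, neg_add_cancel, EE_zero]
    simp
  · rw [if_neg hab, ← P_one (e b), inner_e_P_e (by simp) hab, EE_at_one]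
    simp

lemma eq_zero_of_inner_e {f : HH} (hf : ∀ m, ⟪e m, f⟫_ℂ = 0) : f = 0 := by
  have hL2 : MemLp f 2 (volume.restrict (Ioc (0 : ℝ) 1)) := by
    rw [← restrict_Ioo_eq_restrict_Ioc]
    exact Lp.memLp f
  have h1 := hasSum_sq_fourierCoeffOn (f := f) zero_lt_one hL2
  have h2 : ∀ m, fourierCoeffOn zero_lt_one (f : ℝ → ℂ) m = 0 := by
    intro m
    rw [fourierCoeffOn_eq_integral, ← hf m, ← P_one f, e, inner_io_P (by simp), P_one]
    simp only [sub_zero, div_one, one_smul, smul_eq_mul]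
    congr 1
    funext x
    rw [conj_EE, EE_apply, fourier_coe_apply]
    simp
  simp only [h2, norm_zero, ne_eq, OfNat.ofNat_ne_zero, not_false_eq_true, zero_pow, sub_zero,
    inv_one, one_smul] at h1
  have h3 : ∫ x in (0 : ℝ)..1, ‖f x‖ ^ 2 = 0 := h1.unique hasSum_zero
  have h4 : ⟪f, f⟫_ℂ = 0 := by
    conv_lhs => rw [← P_one f, inner_P, P_P]
    rw [inner_P_eq_integral (by simp)]
    simp only [Complex.conj_mul']
    have : ∫ x in (0 : ℝ)..1, ((‖f x‖ : ℂ)) ^ 2 = ((∫ x in (0 : ℝ)..1, ‖f x‖ ^ 2 : ℝ) : ℂ) := by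
      rw [← intervalIntegral.integral_ofReal]
      simp
    rw [this, h3]
    simp
  exact inner_self_eq_zero.1 h4

/-- the Fourier system as a Hilbert basis -/
def bas : HilbertBasis ℤ ℂ HH :=
  HilbertBasis.mkOfOrthogonalEqBot orthonormal_e (by
    rw [Submodule.eq_bot_iff]
    intro f hf
    apply eq_zero_of_inner_e
    intro m
    exact Submodule.inner_right_of_mem_orthogonal (Submodule.subset_span (mem_range_self m)) hf)

lemma bas_apply (m : ℤ) : bas m = e m := by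
  rw [bas, HilbertBasis.coe_mkOfOrthogonalEqBot]

lemma ext_e {f g : HH} (h : ∀ m, ⟪e m, f⟫_ℂ = ⟪e m, g⟫_ℂ) : f = g := by
  rw [← sub_eq_zero]
  apply eq_zero_of_inner_e
  intro m
  rw [inner_sub_right, h, sub_self]

lemma hasSum_inner (f g : HH) : HasSum (fun m => ⟪f, e m⟫_ℂ * ⟪e m, g⟫_ℂ) ⟪f, g⟫_ℂ := by
  simpa only [bas_apply] using bas.hasSum_inner_mul_inner f g

lemma hasSum_e (f : HH) : HasSum (fun m => ⟪e m, f⟫_ℂ • e m) f := by
  simpa only [bas.repr_apply_apply, bas_apply] using bas.hasSum_repr f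

lemma norm_inner_e_le (m : ℤ) (f : HH) : ‖⟪e m, f⟫_ℂ‖ ≤ ‖f‖ := by
  refine (norm_inner_le_norm _ _).trans ?_
  have := norm_e_le m
  have := norm_nonneg f
  nlinarith

lemma norm_le_of_coef {f g : HH} {C : ℝ} (hC : 0 ≤ C)
    (h : ∀ m, ‖⟪e m, f⟫_ℂ‖ ≤ C * ‖⟪e m, g⟫_ℂ‖) : ‖f‖ ≤ C * ‖g‖ := by
  have h1 : ‖bas.repr f‖ ≤ ‖bas.repr ((C : ℂ) • g)‖ := by
    apply lp.norm_mono (by norm_num)
    intro m
    rw [bas.repr_apply_apply, bas.repr_apply_apply, bas_apply, inner_smul_right, norm_mul,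
      Complex.norm_real, Real.norm_of_nonneg hC]
    exact h m
  rw [LinearIsometryEquiv.norm_map, LinearIsometryEquiv.norm_map, norm_smul, Complex.norm_real,
    Real.norm_of_nonneg hC] at h1
  exact h1

open Classical in
/-- diagonal operators in the Fourier basis -/
def D (c : ℤ → ℂ) : HH →L[ℂ] HH :=
  if h : ∀ m, ‖c m‖ ≤ 1 then
    (bas.repr.symm.toContinuousLinearEquiv : lp (fun _ : ℤ => ℂ) 2 →L[ℂ] HH) ∘L
      (lp.mapCLM 2 (fun m => ContinuousLinearMap.mul ℂ ℂ (c m)) zero_le_one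
        (fun m => by simpa using h m)) ∘L
      (bas.repr.toContinuousLinearEquiv : HH →L[ℂ] lp (fun _ : ℤ => ℂ) 2)
  else 0

lemma inner_D {c : ℤ → ℂ} (hc : ∀ m, ‖c m‖ ≤ 1) (m : ℤ) (f : HH) :
    ⟪e m, D c f⟫_ℂ = c m * ⟪e m, f⟫_ℂ := by
  rw [D, dif_pos hc, ← bas_apply, ← bas.repr_apply_apply, ← bas.repr_apply_apply]
  simp

lemma norm_D_le {c : ℤ → ℂ} {C : ℝ} (hC0 : 0 ≤ C) (hC : C ≤ 1) (hc : ∀ m, ‖c m‖ ≤ C) (f : HH) :
    ‖D c f‖ ≤ C * ‖f‖ := by
  apply norm_le_of_coef hC0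
  intro m
  rw [inner_D (fun m => (hc m).trans hC), norm_mul]
  exact mul_le_mul_of_nonneg_right (hc m) (norm_nonneg _)

lemma inner_D_adj {c : ℤ → ℂ} (hc : ∀ m, ‖c m‖ ≤ 1) (f g : HH) :
    ⟪D (fun m => conj (c m)) f, g⟫_ℂ = ⟪f, D c g⟫_ℂ := by
  refine (hasSum_inner _ _).unique ?_
  have h1 := hasSum_inner f (D c g)
  have h2 : (fun m => ⟪D (fun m => conj (c m)) f, e m⟫_ℂ * ⟪e m, g⟫_ℂ) =
      fun m => ⟪f, e m⟫_ℂ * ⟪e m, D c g⟫_ℂ := by
    funext m
    rw [inner_D hc, ← inner_conj_symm, inner_D (fun m => by simpa using hc m), map_mul,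
      inner_conj_symm, Complex.conj_conj]
    ring
  rw [h2]
  exact h1

/-- synthesis of a bounded continuous function from absolutely summable coefficients -/
def syn (a : ℤ → ℂ) : BB := ∑' m, a m • EE m

lemma summable_syn {a : ℤ → ℂ} (ha : Summable fun m => ‖a m‖) : Summable fun m => a m • EE m := by
  refine Summable.of_norm_bounded ha fun m => ?_
  rw [norm_smul]
  exact mul_le_of_le_one_right (norm_nonneg _) (norm_EE_le m)

lemma hasSum_syn_apply {a : ℤ → ℂ} (ha : Summable fun m => ‖a m‖) (x : ℝ) :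
    HasSum (fun m => a m * EE m x) (syn a x) := by
  have := (summable_syn ha).hasSum.mapL (BoundedContinuousFunction.evalCLM ℂ x)
  simpa [syn] using this

lemma inner_e_syn {a : ℤ → ℂ} (ha : Summable fun m => ‖a m‖) (k : ℤ) :
    ⟪e k, io (syn a)⟫_ℂ = a k := by
  have h1 := ((summable_syn ha).hasSum.mapL io).mapL (innerSL ℂ (e k))
  have h2 : (fun m => innerSL ℂ (e k) (io (a m • EE m))) = fun m => if m = k then a k else 0 := by
    funext m
    rw [map_smul, innerSL_apply_apply, inner_smul_right]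
    change a m * ⟪e k, e m⟫_ℂ = _
    rw [orthonormal_iff_ite.1 orthonormal_e]
    by_cases h : m = k
    · simp [h]
    · simp [h, Ne.symm h]
  rw [h2] at h1
  exact h1.unique (hasSum_ite_eq k (a k))

lemma io_syn {f : HH} (hf : Summable fun m => ‖⟪e m, f⟫_ℂ‖) :
    io (syn fun m => ⟪e m, f⟫_ℂ) = f :=
  ext_e fun m => inner_e_syn hf m

lemma norm_P_sub_io {ξ η : ℝ} (h : η ≤ ξ) (F : BB) :
    ‖P ξ (io F) - P η (io F)‖ ≤ ‖F‖ * √(ξ - η) := by
  have hfin : mu (Ico η ξ) ≠ ⊤ := measure_ne_top _ _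
  have h1 : ‖P ξ (io F) - P η (io F)‖ ≤
      ‖indicatorConstLp (μ := mu) 2 (measurableSet_Ico (a := η) (b := ξ)) hfin (‖F‖ : ℝ)‖ := by
    apply Lp.norm_le_norm_of_ae_le
    filter_upwards [Lp.coeFn_sub (P ξ (io F)) (P η (io F)), coe_P ξ (io F), coe_P η (io F),
      coe_io F, indicatorConstLp_coeFn (μ := mu) (p := 2) (hs := measurableSet_Ico (a := η) (b := ξ))
        (hμs := hfin) (c := (‖F‖ : ℝ))] with x h1 h2 h3 h4 h5
    rw [h1, Pi.sub_apply, h2, h3, h5]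
    by_cases hx : x < η
    · rw [indicator_of_mem (show x ∈ Iio ξ from hx.trans_le h), indicator_of_mem (show x ∈ Iio η from hx)]
      simp
    · rw [indicator_of_notMem (show x ∉ Iio η from hx)]
      by_cases hx2 : x < ξ
      · rw [indicator_of_mem (show x ∈ Iio ξ from hx2),
          indicator_of_mem (show x ∈ Ico η ξ from ⟨not_lt.1 hx, hx2⟩), h4, sub_zero, norm_norm]
        exact F.norm_coe_le_norm x
      · rw [indicator_of_notMem (show x ∉ Iio ξ from hx2)]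
        simp
  refine h1.trans ?_
  rw [norm_indicatorConstLp (by norm_num) (by norm_num), norm_norm]
  refine mul_le_mul_of_nonneg_left ?_ (norm_nonneg _)
  have h2 : mu.real (Ico η ξ) ≤ ξ - η := by
    have h3 : mu (Ico η ξ) ≤ volume (Ico η ξ) := Measure.restrict_le_self _
    rw [Real.volume_Ico] at h3
    exact ENNReal.toReal_le_of_le_ofReal (sub_nonneg.2 h) h3
  rw [Real.sqrt_eq_rpow]
  have h4 : (1 / (2 : ENNReal).toReal) = (1 / 2 : ℝ) := by norm_num
  rw [h4]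
  exact Real.rpow_le_rpow measureReal_nonneg h2 (by norm_num)

lemma norm_P_sub_io' (ξ η : ℝ) (F : BB) :
    ‖P ξ (io F) - P η (io F)‖ ≤ ‖F‖ * √|ξ - η| := by
  rcases le_total η ξ with h | h
  · rw [abs_of_nonneg (sub_nonneg.2 h)]
    exact norm_P_sub_io h F
  · rw [abs_sub_comm, abs_of_nonneg (sub_nonneg.2 h), norm_sub_rev]
    exact norm_P_sub_io h F

lemma P_eq_self_iff {ξ : ℝ} (hξ : ξ ∈ Icc (0 : ℝ) 1) (f : HH) :
    (∀ᵐ x ∂(volume : Measure ℝ), x ∈ Ioo ξ 1 → f x = 0) ↔ P ξ f = f := by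
  constructor
  · intro h
    apply Lp.ext
    have hne : ∀ᵐ x ∂(volume : Measure ℝ), x ≠ ξ := by simp [ae_iff]
    filter_upwards [coe_P ξ f, ae_restrict_mem measurableSet_Ioo, ae_restrict_of_ae h,
      ae_restrict_of_ae hne] with x h1 h2 h3 h4
    rw [h1]
    by_cases hx : x ∈ Iio ξ
    · rw [indicator_of_mem hx]
    · rw [indicator_of_notMem hx, h3 ⟨lt_of_le_of_ne (not_lt.1 hx) h4.symm, h2.2⟩]
  · intro h
    have h1 := coe_P ξ f
    rw [h] at h1
    have h2 := (ae_restrict_iff' measurableSet_Ioo).1 h1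
    filter_upwards [h2] with x hx hx2
    rw [hx ⟨hξ.1.trans_lt hx2.1, hx2.2⟩, indicator_of_notMem (show x ∉ Iio ξ from not_lt.2 hx2.1.le)]

lemma P_eq_iff {ξ : ℝ} (hξ : ξ ∈ Icc (0 : ℝ) 1) (f g : HH) :
    (∀ᵐ x ∂(volume : Measure ℝ), x ∈ Ioo 0 ξ → f x = g x) ↔ P ξ f = P ξ g := by
  constructor
  · intro h
    apply Lp.ext
    filter_upwards [coe_P ξ f, coe_P ξ g, ae_restrict_mem measurableSet_Ioo, ae_restrict_of_ae h]
      with x h1 h2 h3 h4
    rw [h1, h2]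
    by_cases hx : x ∈ Iio ξ
    · rw [indicator_of_mem hx, indicator_of_mem hx, h4 ⟨h3.1, hx⟩]
    · rw [indicator_of_notMem hx, indicator_of_notMem hx]
  · intro h
    have h1 := coe_P ξ f
    rw [h] at h1
    have h3 := (ae_restrict_iff' measurableSet_Ioo).1 ((coe_P ξ g).symm.trans h1)
    filter_upwards [h3] with x hx hx2
    have := hx ⟨hx2.1, hx2.2.trans_le hξ.2⟩
    rw [indicator_of_mem (show x ∈ Iio ξ from hx2.2), indicator_of_mem (show x ∈ Iio ξ from hx2.2)]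
      at this
    exact this.symm

lemma P_eq_zero_iff {ξ : ℝ} (hξ : ξ ∈ Icc (0 : ℝ) 1) (f : HH) :
    (∀ᵐ x ∂(volume : Measure ℝ), x ∈ Ioo 0 ξ → f x = 0) ↔ P ξ f = 0 := by
  rw [← map_zero (P ξ), ← P_eq_iff hξ]
  have h0 := (ae_restrict_iff' measurableSet_Ioo).1 (Lp.coeFn_zero ℂ 2 mu)
  constructor
  · intro h
    filter_upwards [h, h0] with x h1 h2 hx
    rw [h1 hx, h2 ⟨hx.1, hx.2.trans_le hξ.2⟩]
    rfl
  · intro h
    filter_upwards [h, h0] with x h1 h2 hx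
    rw [h1 hx, h2 ⟨hx.1, hx.2.trans_le hξ.2⟩]
    rfl

lemma alt_sum (q : ℕ → Prop) [DecidablePred q] (hq : ∀ j, q j → q (j + 1)) (n : ℕ) :
    (∑ j ∈ Finset.range n, if q j then (-1 : ℂ) ^ j else 0) = 0 ∨
      (q n ∧ (∑ j ∈ Finset.range n, if q j then (-1 : ℂ) ^ j else 0) = (-1) ^ (n + 1)) := by
  induction n with
  | zero => simp
  | succ n ih =>
    rw [Finset.sum_range_succ]
    rcases ih with h | ⟨h1, h2⟩
    · rw [h]
      by_cases hn : q n
      · right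
        refine ⟨hq n hn, ?_⟩
        rw [if_pos hn]
        ring
      · left
        rw [if_neg hn, add_zero]
    · left
      rw [h2, if_pos h1]
      ring

lemma norm_alt_P (a : ℕ → ℝ) (ha : Monotone a) (n : ℕ) (f : HH) :
    ‖∑ j ∈ Finset.range n, (-1 : ℂ) ^ j • P (a j) f‖ ≤ ‖f‖ := by
  apply Lp.norm_le_norm_of_ae_le
  have h1 : ∀ n, (∑ j ∈ Finset.range n, (-1 : ℂ) ^ j • P (a j) f : HH) =ᵐ[mu]
      fun x => (∑ j ∈ Finset.range n, if x < a j then (-1 : ℂ) ^ j else 0) * f x := by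
    intro n
    induction n with
    | zero =>
      filter_upwards with x
      simp
    | succ n ih =>
      rw [Finset.sum_range_succ]
      filter_upwards [ih, Lp.coeFn_add (∑ j ∈ Finset.range n, (-1 : ℂ) ^ j • P (a j) f)
        ((-1 : ℂ) ^ n • P (a n) f), Lp.coeFn_smul ((-1 : ℂ) ^ n) (P (a n) f), coe_P (a n) f]
        with x h1 h2 h3 h4
      rw [h2, Pi.add_apply, h1, h3, Pi.smul_apply, h4, Finset.sum_range_succ, add_mul]
      by_cases hx : x < a n
      · rw [indicator_of_mem (show x ∈ Iio (a n) from hx), if_pos hx, smul_eq_mul]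
      · rw [indicator_of_notMem (show x ∉ Iio (a n) from hx), if_neg hx]
        simp
  filter_upwards [h1 n] with x hx
  rw [hx, norm_mul]
  refine mul_le_of_le_one_left (norm_nonneg _) ?_
  rcases alt_sum (fun j => x < a j) (fun j hj => hj.trans_le (ha (Nat.le_succ j))) n with h | ⟨-, h⟩
  · rw [h]; simp
  · rw [h]; simp

end

end Pool.Agent.Work.MP_8e7914_an
end

-- merged part: Pool.Agent.Work.MP_8e7914_an.Solve
section
open MeasureTheory Set Complex ComplexConjugate Filter Topology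
open scoped InnerProductSpace BoundedContinuousFunction Real

namespace Pool.Agent.Work.MP_8e7914_an

noncomputable section

/-- the solution v of v + K P v = φ -/
def sol (K : HH →L[ℂ] HH) (ξ : ℝ) (φ : HH) : HH := Ring.inverse (1 + K * P ξ) φ

lemma isUnit_one_add {X : HH →L[ℂ] HH} (h : ‖X‖ < 1) : IsUnit (1 + X) := by
  have := (Units.oneSub (-X) (by rwa [norm_neg])).isUnit
  simpa using this

lemma norm_mul_P_lt {K : HH →L[ℂ] HH} (hK : ‖K‖ < 1) (ξ : ℝ) : ‖K * P ξ‖ < 1 := by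
  refine (norm_mul_le _ _).trans_lt ?_
  exact (mul_le_of_le_one_right (norm_nonneg _) (opNorm_P_le ξ)).trans_lt hK

def Small (K : HH →L[ℂ] HH) : Prop := ∀ f, ‖K f‖ ≤ 1 / 2 * ‖f‖

lemma Small.lt {K : HH →L[ℂ] HH} (hK : Small K) : ‖K‖ < 1 :=
  (ContinuousLinearMap.opNorm_le_bound _ (by norm_num) hK).trans_lt (by norm_num)

lemma small_D {c : ℤ → ℂ} (hc : ∀ m, ‖c m‖ ≤ 1 / 2) : Small (D c) :=
  norm_D_le (by norm_num) (by norm_num) hc

lemma sol_eq {K : HH →L[ℂ] HH} (hK : Small K) (ξ : ℝ) (φ : HH) :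
    sol K ξ φ + K (P ξ (sol K ξ φ)) = φ := by
  have h := Ring.mul_inverse_cancel _ (isUnit_one_add (norm_mul_P_lt hK.lt ξ))
  have h2 := congrArg (fun T : HH →L[ℂ] HH => T φ) h
  simpa [sol] using h2

lemma norm_sol_le {K : HH →L[ℂ] HH} (hK : Small K) (ξ : ℝ) (φ : HH) : ‖sol K ξ φ‖ ≤ 2 * ‖φ‖ := by
  have h1 := sol_eq hK ξ φ
  have h2 : sol K ξ φ = φ - K (P ξ (sol K ξ φ)) := eq_sub_of_add_eq h1
  have h3 := norm_sub_le φ (K (P ξ (sol K ξ φ)))
  rw [← h2] at h3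
  have h4 := hK (P ξ (sol K ξ φ))
  have h5 := norm_P_le ξ (sol K ξ φ)
  linarith

lemma P_sol {K : HH →L[ℂ] HH} (hK : Small K) (ξ : ℝ) (φ : HH) :
    P ξ ((1 + K) (P ξ (sol K ξ φ))) = P ξ φ := by
  conv_rhs => rw [← sol_eq hK ξ φ]
  simp [P_P]

lemma sol_unique {K : HH →L[ℂ] HH} (hK : Small K) {ξ : ℝ} {φ u : HH} (h1 : P ξ u = u)
    (h2 : P ξ ((1 + K) u) = P ξ φ) : u = P ξ (sol K ξ φ) := by
  set d := u - P ξ (sol K ξ φ) with hd
  have h3 : P ξ ((1 + K) d) = 0 := by rw [hd, map_sub, map_sub, h2, P_sol hK, sub_self]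
  have h4 : P ξ d = d := by rw [hd, map_sub, h1, P_P]
  have h5 : d = -P ξ (K d) := by
    rw [add_apply, one_apply_eq_self, map_add, h4] at h3
    exact eq_neg_of_add_eq_zero_left h3
  have h6 : ‖d‖ ≤ 1 / 2 * ‖d‖ := by
    conv_lhs => rw [h5, norm_neg]
    exact (norm_P_le _ _).trans (hK d)
  have h7 : ‖d‖ = 0 := by linarith [norm_nonneg d]
  exact sub_eq_zero.1 (norm_eq_zero.1 h7)

lemma key_identity {K L L' : HH →L[ℂ] HH} (hK : Small K) (hL' : Small L')
    (hadj : ∀ f g, ⟪L' f, g⟫_ℂ = ⟪f, L g⟫_ℂ) (ξ η : ℝ) (φ ψ : HH) :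
    ⟪ψ, P ξ (sol K ξ φ)⟫_ℂ = ⟪sol L' η ψ, P ξ (sol K ξ φ)⟫_ℂ - ⟪sol L' η ψ, P η (sol K ξ φ)⟫_ℂ
      + ⟪P η (sol L' η ψ), φ⟫_ℂ - ⟪P η (sol L' η ψ), (K - L) (P ξ (sol K ξ φ))⟫_ℂ := by
  have h1 := sol_eq hK ξ φ
  have h2 := sol_eq hL' η ψ
  set v := sol K ξ φ
  set w := sol L' η ψ
  conv_lhs => rw [← h2]
  conv_rhs => rw [← h1]
  rw [inner_add_left, hadj, sub_apply, inner_sub_right, inner_add_right,
    ← inner_P η w v]
  ring

lemma norm_sol_sub {K : HH →L[ℂ] HH} (hK : Small K) (ξ η : ℝ) (φ : HH) :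
    ‖sol K ξ φ - sol K η φ‖ ≤ ‖P ξ (sol K η φ) - P η (sol K η φ)‖ := by
  have h1 := sol_eq hK ξ φ
  have h2 := sol_eq hK η φ
  set v := sol K ξ φ
  set w := sol K η φ
  have h3 : v - w = -(K (P ξ (v - w)) + K (P ξ w - P η w)) := by
    simp only [map_sub]
    have : v = w + K (P η w) - K (P ξ v) := by rw [h2]; exact eq_sub_of_add_eq h1
    conv_lhs => rw [this]
    abel
  have h4 : ‖v - w‖ ≤ ‖K (P ξ (v - w))‖ + ‖K (P ξ w - P η w)‖ := by
    conv_lhs => rw [h3, norm_neg]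
    exact norm_add_le _ _
  have h5 := hK (P ξ (v - w))
  have h6 := hK (P ξ w - P η w)
  have h7 := norm_P_le ξ (v - w)
  linarith

lemma continuous_sol {K : HH →L[ℂ] HH} (hK : Small K) (φ : HH) (V : ℝ → BB)
    (hV : ∀ η, io (V η) = sol K η φ) : Continuous fun ξ => sol K ξ φ := by
  rw [continuous_iff_continuousAt]
  intro η
  rw [ContinuousAt, tendsto_iff_norm_sub_tendsto_zero]
  have h1 : Tendsto (fun ξ : ℝ => ‖V η‖ * √|ξ - η|) (𝓝 η) (𝓝 0) := by
    have : Continuous fun ξ : ℝ => ‖V η‖ * √|ξ - η| := by fun_prop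
    simpa using this.tendsto η
  refine squeeze_zero (fun _ => norm_nonneg _) (fun ξ => ?_) h1
  refine (norm_sol_sub hK ξ η φ).trans ?_
  rw [← hV η]
  exact norm_P_sub_io' ξ η _

lemma hasDerivAt_aux (V : ℝ → BB) (hV : Continuous V) (W : BB) (η : ℝ) :
    HasDerivAt (fun ξ => ∫ x in η..ξ, conj (W x) * V ξ x) (conj (W η) * V η η) η := by
  have hc : ∀ ξ, Continuous fun x => conj (W x) * V ξ x := fun ξ => by fun_prop
  have h1 : HasDerivAt (fun ξ => ∫ x in η..ξ, conj (W x) * V η x) (conj (W η) * V η η) η :=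
    ((hc η).integral_hasStrictDerivAt η η).hasDerivAt
  have h2 : HasDerivAt (fun ξ => ∫ x in η..ξ, conj (W x) * (V ξ - V η) x) 0 η := by
    rw [hasDerivAt_iff_isLittleO]
    simp only [intervalIntegral.integral_same, sub_zero, smul_zero]
    have h3 : (fun ξ => ‖W‖ * ‖V ξ - V η‖) =o[𝓝 η] (fun _ => (1 : ℝ)) := by
      rw [Asymptotics.isLittleO_one_iff]
      have : Continuous fun ξ => ‖W‖ * ‖V ξ - V η‖ := by fun_prop
      simpa using this.tendsto η
    have h4 := h3.mul_isBigO (Asymptotics.isBigO_refl (fun ξ : ℝ => ξ - η) (𝓝 η))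
    simp only [one_mul] at h4
    refine Asymptotics.IsBigO.trans_isLittleO (Asymptotics.IsBigO.of_bound' ?_) h4
    filter_upwards with ξ
    rw [norm_mul, Real.norm_of_nonneg (by positivity), Real.norm_eq_abs]
    apply intervalIntegral.norm_integral_le_of_norm_le_const
    intro x _
    rw [norm_mul, Complex.norm_conj]
    exact mul_le_mul (W.norm_coe_le_norm x) ((V ξ - V η).norm_coe_le_norm x) (norm_nonneg _)
      (norm_nonneg _)
  have h5 := h1.add h2
  rw [add_zero] at h5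
  refine h5.congr_of_eventuallyEq (Eventually.of_forall fun ξ => ?_)
  simp only [Pi.add_apply]
  rw [← intervalIntegral.integral_add ((hc η).intervalIntegrable _ _)
    (Continuous.intervalIntegrable (by fun_prop) _ _)]
  congr 1
  funext x
  simp only [BoundedContinuousFunction.coe_sub, Pi.sub_apply]
  ring

/-- the bilinear form of the truncated inverse is the integral of a product of boundary values -/
lemma form_eq_integral {K K' : HH →L[ℂ] HH} (hK : Small K) (hK' : Small K')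
    (hadj : ∀ f g, ⟪K' f, g⟫_ℂ = ⟪f, K g⟫_ℂ) (φ ψ : HH) (V W : ℝ → BB)
    (hV : ∀ η, io (V η) = sol K η φ) (hW : ∀ η, io (W η) = sol K' η ψ)
    (hVc : Continuous V) (hWc : Continuous W) {ξ : ℝ} (hξ : ξ ∈ Icc (0 : ℝ) 1) :
    ⟪ψ, P ξ (sol K ξ φ)⟫_ℂ = ∫ x in (0 : ℝ)..ξ, conj (W x x) * V x x := by
  set b : ℝ → ℂ := fun ξ => ⟪ψ, P ξ (sol K ξ φ)⟫_ℂ with hb
  have hdiff : ∀ ξ ∈ Icc (0 : ℝ) 1, ∀ η ∈ Icc (0 : ℝ) 1,
      b ξ = b η + ∫ x in η..ξ, conj (W η x) * V ξ x := by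
    intro ξ hξ η hη
    have h1 := key_identity hK hK' hadj ξ η φ ψ
    have h2 := key_identity hK hK' hadj η η φ ψ
    simp only [sub_self, zero_apply, inner_zero_right, sub_zero,
      zero_add] at h1 h2
    have hc : Continuous fun x => conj (W η x) * V ξ x := by fun_prop
    simp only [hb]
    rw [h1, h2, ← hV ξ, ← hW η, inner_io_P_io hξ, inner_io_P_io hη,
      intervalIntegral.integral_interval_sub_left (hc.intervalIntegrable _ _)
        (hc.intervalIntegrable _ _), add_comm]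
  have hder : ∀ η ∈ Icc (0 : ℝ) 1, HasDerivWithinAt b (conj (W η η) * V η η) (Icc 0 1) η := by
    intro η hη
    have h1 := ((hasDerivAt_aux V hVc (W η) η).const_add (b η)).hasDerivWithinAt (s := Icc 0 1)
    exact h1.congr (fun ξ hξ => hdiff ξ hξ η hη) (hdiff η hη η hη)
  have hD : Continuous fun x => conj (W x x) * V x x := by fun_prop
  have h0 : b 0 = 0 := by simp [hb, P_zero]
  have h3 := intervalIntegral.integral_eq_sub_of_hasDerivAt_of_le (f := b)
    (f' := fun x => conj (W x x) * V x x) hξ.1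
    (fun η hη => (hder η ⟨hη.1, hη.2.trans hξ.2⟩).continuousWithinAt.mono
      (Icc_subset_Icc_right hξ.2))
    (fun η hη => (hder η ⟨hη.1.le, hη.2.le.trans hξ.2⟩).hasDerivAt
      (Icc_mem_nhds hη.1 (hη.2.trans_le hξ.2)))
    (hD.intervalIntegrable _ _)
  rw [h3, h0, sub_zero]

end

end Pool.Agent.Work.MP_8e7914_an
end

-- merged part: Pool.Agent.Work.MP_8e7914_an.Sparse
section
open MeasureTheory Set Complex ComplexConjugate Filter Topology
open scoped InnerProductSpace BoundedContinuousFunction Real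

namespace Pool.Agent.Work.MP_8e7914_an

noncomputable section

lemma P_of_nonpos {ξ : ℝ} (h : ξ ≤ 0) (f : HH) : P ξ f = 0 := by
  apply Lp.ext
  filter_upwards [coe_P ξ f, ae_restrict_mem measurableSet_Ioo,
    Lp.coeFn_zero ℂ 2 mu] with x h1 h2 h3
  rw [h1, h3, indicator_of_notMem (show x ∉ Iio ξ from not_lt.2 (h.trans h2.1.le))]
  rfl

lemma P_of_one_le {ξ : ℝ} (h : 1 ≤ ξ) (f : HH) : P ξ f = f := by
  apply Lp.ext
  filter_upwards [coe_P ξ f, ae_restrict_mem measurableSet_Ioo] with x h1 h2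
  rw [h1, indicator_of_mem (show x ∈ Iio ξ from h2.2.trans_le h)]

lemma norm_two_pi_I_mul (m : ℤ) : ‖(2 * π * I * m : ℂ)‖ = 2 * π * |(m : ℝ)| := by
  simp [abs_of_pos Real.pi_pos]

lemma norm_inner_e_P_e (ξ : ℝ) {a b : ℤ} (hab : a ≠ b) :
    ‖⟪e a, P ξ (e b)⟫_ℂ‖ ≤ 1 / (3 * |((b - a : ℤ) : ℝ)|) := by
  have hpos : 0 < |((b - a : ℤ) : ℝ)| := by
    rw [abs_pos]
    exact_mod_cast sub_ne_zero.2 hab.symm
  rcases le_total ξ 0 with h0 | h0
  · rw [P_of_nonpos h0, inner_zero_right, norm_zero]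
    positivity
  rcases le_total 1 ξ with h1 | h1
  · rw [P_of_one_le h1, orthonormal_iff_ite.1 orthonormal_e, if_neg hab, norm_zero]
    positivity
  rw [inner_e_P_e ⟨h0, h1⟩ hab, norm_div, norm_two_pi_I_mul,
    div_le_div_iff₀ (by positivity) (by positivity)]
  have h2 : ‖EE (b - a) ξ - 1‖ ≤ 2 := by
    refine (norm_sub_le _ _).trans ?_
    rw [norm_EE_apply, norm_one]
    norm_num
  have h3 := Real.pi_gt_three
  nlinarith

/-- left end of the n-th block of frequencies -/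
def lam (n : ℕ) : ℤ := 2 * 256 ^ (n + 1)

/-- the n-th extended block -/
def Ext (n : ℕ) : Finset ℤ := Finset.Icc (lam n) (lam n + n + 1)

def del (n : ℕ) : ℝ := (1 / 16) ^ (n + 1)

lemma del_pos (n : ℕ) : 0 < del n := by unfold del; positivity

lemma card_Ext (n : ℕ) : (Ext n).card = n + 2 := by
  rw [Ext, Int.card_Icc]
  have : lam n + n + 1 + 1 - lam n = ((n + 2 : ℕ) : ℤ) := by push_cast; ring
  rw [this, Int.toNat_natCast]

lemma sep_aux {j n : ℕ} (h : j < n) {k m : ℤ} (hk : k ∈ Ext j) (hm : m ∈ Ext n) :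
    (16 : ℤ) ^ (n + 1) * 16 ^ (j + 1) ≤ m - k := by
  rw [Ext, Finset.mem_Icc, lam] at hk hm
  have h1 : (j : ℤ) + 1 ≤ 256 ^ (j + 1) := by
    have := Nat.lt_pow_self (n := j + 1) (show 1 < 256 by norm_num)
    exact_mod_cast this.le
  have h2 : (256 : ℤ) ^ (j + 1) * 256 ≤ 256 ^ (n + 1) := by
    rw [← pow_succ]
    exact pow_le_pow_right₀ (by norm_num) (by omega)
  have h3 : (16 : ℤ) ^ (n + 1) * 16 ^ (j + 1) ≤ 256 ^ (n + 1) := by
    have : (256 : ℤ) ^ (n + 1) = 16 ^ (n + 1) * 16 ^ (n + 1) := by rw [← mul_pow]; norm_num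
    rw [this]
    exact mul_le_mul_of_nonneg_left (pow_le_pow_right₀ (by norm_num) (by omega)) (by positivity)
  have h4 : (0 : ℤ) < 256 ^ (j + 1) := by positivity
  omega

lemma sep {j n : ℕ} (h : j ≠ n) {k m : ℤ} (hk : k ∈ Ext j) (hm : m ∈ Ext n) :
    m ≠ k ∧ 1 / |((k - m : ℤ) : ℝ)| ≤ del n * del j := by
  have h1 : (16 : ℤ) ^ (n + 1) * 16 ^ (j + 1) ≤ |k - m| := by
    rcases lt_or_gt_of_ne h with h | h
    · rw [abs_sub_comm]
      exact (sep_aux h hk hm).trans (le_abs_self _)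
    · rw [mul_comm]
      exact (sep_aux h hm hk).trans (le_abs_self _)
  have h0 : (0 : ℤ) < 16 ^ (n + 1) * 16 ^ (j + 1) := by positivity
  refine ⟨?_, ?_⟩
  · rintro rfl
    simp at h1
    omega
  · have h2 : (16 : ℝ) ^ (n + 1) * 16 ^ (j + 1) ≤ |((k - m : ℤ) : ℝ)| := by exact_mod_cast h1
    have h3 : del n * del j = 1 / ((16 : ℝ) ^ (n + 1) * 16 ^ (j + 1)) := by
      simp only [del, one_div, inv_pow, mul_inv]
    rw [h3]
    exact one_div_le_one_div_of_le (by positivity) h2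

lemma sep_zero {n : ℕ} {m : ℤ} (hm : m ∈ Ext n) : m ≠ 0 ∧ 1 / |(m : ℝ)| ≤ del n := by
  rw [Ext, Finset.mem_Icc, lam] at hm
  have h3 : (16 : ℤ) ^ (n + 1) ≤ 256 ^ (n + 1) := pow_le_pow_left₀ (by norm_num) (by norm_num) _
  have h0 : (0 : ℤ) < 16 ^ (n + 1) := by positivity
  have h1 : (16 : ℤ) ^ (n + 1) ≤ |m| := le_trans (by omega) (le_abs_self _)
  refine ⟨by omega, ?_⟩
  have h2 : (16 : ℝ) ^ (n + 1) ≤ |(m : ℝ)| := by exact_mod_cast h1
  have h3 : del n = 1 / (16 : ℝ) ^ (n + 1) := by simp only [del, one_div, inv_pow]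
  rw [h3]
  exact one_div_le_one_div_of_le (by positivity) h2

lemma Ext_unique {j n : ℕ} {k : ℤ} (hj : k ∈ Ext j) (hn : k ∈ Ext n) : j = n := by
  by_contra h
  exact (sep h hj hn).1 rfl

lemma zero_notMem_Ext (n : ℕ) : (0 : ℤ) ∉ Ext n := fun h => (sep_zero h).1 rfl

lemma sq_del_le (n : ℕ) : ((n : ℝ) + 2) * ((n + 2) * del n) ≤ (1 / 4) ^ (n + 1) := by
  have h1 : (n : ℝ) + 2 ≤ 2 ^ (n + 1) := by
    have := Nat.lt_two_pow_self (n := n + 1)
    exact_mod_cast this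
  have h2 : ((n : ℝ) + 2) * (n + 2) ≤ 4 ^ (n + 1) := by
    have : (4 : ℝ) ^ (n + 1) = 2 ^ (n + 1) * 2 ^ (n + 1) := by rw [← mul_pow]; norm_num
    rw [this]
    exact mul_le_mul h1 h1 (by positivity) (by positivity)
  have h3 : (1 / 4 : ℝ) ^ (n + 1) = 4 ^ (n + 1) * del n := by
    rw [del, ← mul_pow]; norm_num
  rw [h3, ← mul_assoc]
  exact mul_le_mul_of_nonneg_right h2 (del_pos n).le

/-- weights -/
def ww (p : ℕ × ℤ) : ℝ := if p.2 ∈ Ext p.1 then (p.1 + 2) * del p.1 else 0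

lemma ww_nonneg (p : ℕ × ℤ) : 0 ≤ ww p := by
  unfold ww
  split_ifs
  · have := del_pos p.1
    positivity
  · exact le_rfl

lemma hasSum_ww (j : ℕ) : HasSum (fun k => ww (j, k)) ((j + 2) * ((j + 2) * del j)) := by
  have h : HasSum (fun k => ww (j, k)) (∑ k ∈ Ext j, ww (j, k)) :=
    hasSum_sum_of_ne_finset_zero (fun k hk => by simp [ww, hk])
  have h2 : ∑ k ∈ Ext j, ww (j, k) = (j + 2) * ((j + 2) * del j) := by
    rw [Finset.sum_congr rfl (g := fun _ => ((j : ℝ) + 2) * del j) (fun k hk => by simp [ww, hk]),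
      Finset.sum_const, card_Ext, nsmul_eq_mul]
    push_cast
    ring
  rwa [h2] at h

lemma hasSum_quarter : HasSum (fun j : ℕ => (1 / 4 : ℝ) ^ (j + 1)) (1 / 3) := by
  have := (hasSum_geometric_of_lt_one (r := 1 / 4) (by norm_num) (by norm_num)).mul_right (1 / 4)
  simp only [← pow_succ] at this
  have h : (1 - 1 / 4 : ℝ)⁻¹ * (1 / 4) = 1 / 3 := by norm_num
  rwa [h] at this

lemma summable_sq_del : Summable fun j : ℕ => ((j : ℝ) + 2) * ((j + 2) * del j) :=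
  Summable.of_nonneg_of_le (fun j => by have := del_pos j; positivity) sq_del_le
    hasSum_quarter.summable

lemma summable_ww : Summable ww := by
  rw [summable_prod_of_nonneg ww_nonneg]
  refine ⟨fun j => (hasSum_ww j).summable, ?_⟩
  simp only [(hasSum_ww _).tsum_eq]
  exact summable_sq_del

def w (k : ℤ) : ℝ := ∑' j, ww (j, k)

lemma summable_w : Summable w := summable_ww.prod_symm.prod

lemma w_nonneg (k : ℤ) : 0 ≤ w k := tsum_nonneg fun _ => ww_nonneg _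

lemma tsum_w_le : ∑' k, w k ≤ 1 / 3 := by
  have h1 : ∑' k, w k = ∑' j, ∑' k, ww (j, k) :=
    Summable.tsum_comm (f := fun j k => ww (j, k)) summable_ww
  rw [h1]
  simp only [(hasSum_ww _).tsum_eq]
  exact (summable_sq_del.tsum_le_tsum sq_del_le hasSum_quarter.summable).trans_eq
    hasSum_quarter.tsum_eq

lemma le_w {j : ℕ} {k : ℤ} (h : k ∈ Ext j) : (j + 2) * del j ≤ w k := by
  have h1 : Summable fun j => ww (j, k) := summable_ww.prod_symm.prod_factor k
  have := h1.le_tsum j (fun i _ => ww_nonneg _)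
  refine le_trans ?_ this
  simp [ww, h]

lemma del_le_w {j : ℕ} {k : ℤ} (h : k ∈ Ext j) : del j ≤ w k := by
  refine le_trans ?_ (le_w h)
  have := del_pos j
  have h2 : (0 : ℝ) ≤ j := Nat.cast_nonneg j
  nlinarith

/-- the Fourier coefficients of g vanish outside 0 and the blocks other than the n-th -/
def Off (n : ℕ) (g : HH) : Prop := ∀ k, k ≠ 0 → (∀ j, j ≠ n → k ∉ Ext j) → ⟪e k, g⟫_ℂ = 0

lemma off_bound {n : ℕ} {g : HH} (hg : Off n g) (ξ : ℝ) {m : ℤ} (hm : m ∈ Ext n) :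
    ‖⟪e m, P ξ g⟫_ℂ‖ ≤ del n * ‖g‖ := by
  rw [← inner_P, ← (hasSum_inner _ _).tsum_eq]
  have h1 : HasSum (fun k : ℤ => (del n * ‖g‖ / 3) * ((if k = 0 then 1 else 0) + w k))
      ((del n * ‖g‖ / 3) * (1 + ∑' k, w k)) :=
    ((hasSum_ite_eq (0 : ℤ) (1 : ℝ)).add summable_w.hasSum).mul_left _
  have hd := del_pos n
  have hg0 := norm_nonneg g
  refine (tsum_of_norm_bounded h1 fun k => ?_).trans ?_
  · have hw := w_nonneg k
    rw [norm_mul, inner_P]
    by_cases hk : k = 0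
    · subst hk
      have h2 := norm_inner_e_P_e ξ (sep_zero hm).1
      have h3 := (sep_zero hm).2
      have h4 := norm_inner_e_le 0 g
      rw [zero_sub, Int.cast_neg, abs_neg, mul_comm, ← div_div] at h2
      have h5 : ‖⟪e m, P ξ (e 0)⟫_ℂ‖ ≤ del n / 3 := by linarith
      have h6 := mul_le_mul h5 h4 (norm_nonneg _) (by positivity)
      rw [if_pos rfl]
      nlinarith [mul_nonneg (mul_nonneg hd.le hg0) hw]
    · rw [if_neg hk, zero_add]
      by_cases hj : ∃ j, j ≠ n ∧ k ∈ Ext j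
      · obtain ⟨j, hjn, hkj⟩ := hj
        have h2 := norm_inner_e_P_e ξ (sep hjn hkj hm).1
        have h3 := (sep hjn hkj hm).2
        have h4 := norm_inner_e_le k g
        rw [mul_comm, ← div_div] at h2
        have h7 := mul_le_mul_of_nonneg_left (del_le_w hkj) hd.le
        have h5 : ‖⟪e m, P ξ (e k)⟫_ℂ‖ ≤ del n * w k / 3 := by linarith
        have h6 := mul_le_mul h5 h4 (norm_nonneg _) (by positivity)
        linarith
      · rw [hg k hk (fun j hjn hkj => hj ⟨j, hjn, hkj⟩), norm_zero, mul_zero]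
        positivity
  · have := tsum_w_le
    nlinarith [mul_nonneg hd.le hg0]

/-- indicator of a finite set of frequencies -/
def ind (A : Finset ℤ) (m : ℤ) : ℂ := if m ∈ A then 1 else 0

lemma norm_ind_le (A : Finset ℤ) (m : ℤ) : ‖ind A m‖ ≤ 1 := by
  unfold ind
  split_ifs <;> simp

lemma D_ind (A : Finset ℤ) (f : HH) : D (ind A) f = ∑ m ∈ A, ⟪e m, f⟫_ℂ • e m := by
  apply ext_e
  intro k
  rw [inner_D (norm_ind_le A), inner_sum]
  simp only [inner_smul_right, orthonormal_iff_ite.1 orthonormal_e, mul_ite, mul_one, mul_zero,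
    Finset.sum_ite_eq, ind]
  split_ifs <;> simp

lemma norm_D_ind_le (A : Finset ℤ) (f : HH) {C : ℝ} (h : ∀ m ∈ A, ‖⟪e m, f⟫_ℂ‖ ≤ C) :
    ‖D (ind A) f‖ ≤ A.card * C := by
  rw [D_ind, ← nsmul_eq_mul]
  refine (norm_sum_le _ _).trans (Finset.sum_le_card_nsmul _ _ _ fun m hm => ?_)
  rw [norm_smul]
  exact (mul_le_of_le_one_right (norm_nonneg _) (norm_e_le m)).trans (h m hm)

lemma norm_proj_off {n : ℕ} {g : HH} (hg : Off n g) (ξ : ℝ) :
    ‖D (ind (Ext n)) (P ξ g)‖ ≤ (n + 2) * (del n * ‖g‖) := by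
  have := norm_D_ind_le (Ext n) (P ξ g) (fun m hm => off_bound hg ξ hm)
  rw [card_Ext] at this
  exact_mod_cast this

/-- admissible coefficient sequences -/
def Adm (c : ℤ → ℂ) : Prop := (∀ m, ‖c m‖ ≤ 1 / 2) ∧ ∀ k, (∀ j, k ∉ Ext j) → c k = 0

lemma Adm.one {c : ℤ → ℂ} (h : Adm c) (m : ℤ) : ‖c m‖ ≤ 1 := (h.1 m).trans (by norm_num)

lemma Adm.conj {c : ℤ → ℂ} (h : Adm c) : Adm fun m => conj (c m) :=
  ⟨fun m => by simpa using h.1 m, fun k hk => by simp [h.2 k hk]⟩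

/-- admissible data -/
def Dat (a : ℝ) (φ : HH) : Prop :=
  (∀ k, k ≠ 0 → (∀ j, k ∉ Ext j) → ⟪e k, φ⟫_ℂ = 0) ∧ ∀ j, ∀ k ∈ Ext j, ‖⟪e k, φ⟫_ℂ‖ ≤ a * del j

lemma inner_sol {c : ℤ → ℂ} (hc : Adm c) (ξ : ℝ) (φ : HH) (k : ℤ) :
    ⟪e k, sol (D c) ξ φ⟫_ℂ = ⟪e k, φ⟫_ℂ - c k * ⟪e k, P ξ (sol (D c) ξ φ)⟫_ℂ := by
  conv_rhs => rw [← inner_D hc.one]
  rw [← inner_sub_right]
  congr 1
  exact eq_sub_of_add_eq (sol_eq (small_D hc.1) ξ φ)

lemma block_bound {c : ℤ → ℂ} (hc : Adm c) {a : ℝ} {φ : HH} (hφ : Dat a φ) (ξ : ℝ) (n : ℕ) :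
    ‖D (ind (Ext n)) (sol (D c) ξ φ)‖ ≤ 2 * (a + ‖φ‖) * ((n + 2) * del n) := by
  set v := sol (D c) ξ φ with hv
  set Q := D (ind (Ext n)) with hQ
  have hQi : ∀ k f, ⟪e k, Q f⟫_ℂ = ind (Ext n) k * ⟪e k, f⟫_ℂ := inner_D (norm_ind_le _)
  have hoff : Off n (v - Q v) := by
    intro k hk0 hk
    rw [inner_sub_right, hQi]
    by_cases hkn : k ∈ Ext n
    · simp [ind, hkn]
    · have hall : ∀ j, k ∉ Ext j := fun j => by
        by_cases hj : j = n
        · rwa [hj]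
        · exact hk j hj
      rw [hv, inner_sol hc, hφ.1 k hk0 hall, hc.2 k hall]
      simp
  have h1 : Q v = Q φ - D c (Q (P ξ (Q v))) - D c (Q (P ξ (v - Q v))) := by
    apply ext_e
    intro k
    simp only [map_sub, inner_sub_right, hQi, inner_D hc.one]
    conv_lhs => rw [hv, inner_sol hc, ← hv]
    ring
  have hQn : ∀ f, ‖Q f‖ ≤ ‖f‖ := fun f => by
    simpa using norm_D_le zero_le_one le_rfl (norm_ind_le (Ext n)) f
  have h2 : ‖Q φ‖ ≤ (n + 2) * (a * del n) := by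
    have := norm_D_ind_le (Ext n) φ (hφ.2 n)
    rw [card_Ext] at this
    exact_mod_cast this
  have h3 : ‖D c (Q (P ξ (Q v)))‖ ≤ 1 / 2 * ‖Q v‖ :=
    (small_D hc.1 _).trans (by linarith [hQn (P ξ (Q v)), norm_P_le ξ (Q v)])
  have h4 : ‖v - Q v‖ ≤ 2 * ‖φ‖ := by
    refine le_trans ?_ (norm_sol_le (small_D hc.1) ξ φ)
    rw [← one_mul ‖sol (D c) ξ φ‖]
    apply norm_le_of_coef zero_le_one
    intro k
    rw [inner_sub_right, hQi, ← hv]
    unfold ind
    split_ifs <;> simp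
  have h5 : ‖D c (Q (P ξ (v - Q v)))‖ ≤ 1 / 2 * ((n + 2) * (del n * (2 * ‖φ‖))) := by
    refine (small_D hc.1 _).trans (mul_le_mul_of_nonneg_left ?_ (by norm_num))
    refine (norm_proj_off hoff ξ).trans ?_
    have := del_pos n
    gcongr
  have h6 : ‖Q v‖ ≤ ‖Q φ‖ + ‖D c (Q (P ξ (Q v)))‖ + ‖D c (Q (P ξ (v - Q v)))‖ := by
    conv_lhs => rw [h1]
    exact (norm_sub_le _ _).trans (add_le_add_left (norm_sub_le _ _) _)
  linarith

lemma coef_bound {c : ℤ → ℂ} (hc : Adm c) {a : ℝ} (ha : 0 ≤ a) {φ : HH} (hφ : Dat a φ) (ξ : ℝ)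
    {k : ℤ} (hk : k ≠ 0) : ‖⟪e k, sol (D c) ξ φ⟫_ℂ‖ ≤ 2 * (a + ‖φ‖) * w k := by
  by_cases hj : ∃ j, k ∈ Ext j
  · obtain ⟨j, hj⟩ := hj
    have h1 := norm_inner_e_le k (D (ind (Ext j)) (sol (D c) ξ φ))
    rw [inner_D (norm_ind_le _), ind, if_pos hj, one_mul] at h1
    refine h1.trans ((block_bound hc hφ ξ j).trans ?_)
    exact mul_le_mul_of_nonneg_left (le_w hj) (by positivity)
  · have hall : ∀ j, k ∉ Ext j := fun j h => hj ⟨j, h⟩
    rw [inner_sol hc, hφ.1 k hk hall, hc.2 k hall]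
    have := w_nonneg k
    simp only [zero_mul, sub_self, norm_zero]
    positivity

lemma coef_zero {c : ℤ → ℂ} (hc : Adm c) (φ : HH) (ξ : ℝ) :
    ⟪e 0, sol (D c) ξ φ⟫_ℂ = ⟪e 0, φ⟫_ℂ := by
  rw [inner_sol hc, hc.2 0 zero_notMem_Ext]
  simp

lemma coef_major {c : ℤ → ℂ} (hc : Adm c) {a : ℝ} (ha : 0 ≤ a) {φ : HH} (hφ : Dat a φ) :
    ∃ t : ℤ → ℝ, Summable t ∧ ∀ k ξ, ‖⟪e k, sol (D c) ξ φ⟫_ℂ‖ ≤ t k := by
  refine ⟨fun k => (if k = 0 then ‖φ‖ else 0) + 2 * (a + ‖φ‖) * w k,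
    (hasSum_ite_eq (0 : ℤ) ‖φ‖).summable.add (summable_w.mul_left _), fun k ξ => ?_⟩
  by_cases hk : k = 0
  · subst hk
    rw [coef_zero hc]
    have := norm_inner_e_le 0 φ
    have h2 : 0 ≤ 2 * (a + ‖φ‖) * w 0 := by have := w_nonneg 0; positivity
    simp only [if_true]
    linarith
  · simp only [if_neg hk, zero_add]
    exact coef_bound hc ha hφ ξ hk

/-- the continuous representative of the solution -/
def VV (c : ℤ → ℂ) (φ : HH) (ξ : ℝ) : BB := syn fun m => ⟪e m, sol (D c) ξ φ⟫_ℂ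

lemma summable_coef {c : ℤ → ℂ} (hc : Adm c) {a : ℝ} (ha : 0 ≤ a) {φ : HH} (hφ : Dat a φ)
    (ξ : ℝ) : Summable fun m => ‖⟪e m, sol (D c) ξ φ⟫_ℂ‖ := by
  obtain ⟨t, ht, h⟩ := coef_major hc ha hφ
  exact Summable.of_nonneg_of_le (fun _ => norm_nonneg _) (fun k => h k ξ) ht

lemma io_VV {c : ℤ → ℂ} (hc : Adm c) {a : ℝ} (ha : 0 ≤ a) {φ : HH} (hφ : Dat a φ) (ξ : ℝ) :
    io (VV c φ ξ) = sol (D c) ξ φ := io_syn (summable_coef hc ha hφ ξ)

lemma continuous_VV {c : ℤ → ℂ} (hc : Adm c) {a : ℝ} (ha : 0 ≤ a) {φ : HH} (hφ : Dat a φ) :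
    Continuous (VV c φ) := by
  obtain ⟨t, ht, h⟩ := coef_major hc ha hφ
  have hs := continuous_sol (small_D hc.1) φ (VV c φ) (io_VV hc ha hφ)
  refine continuous_tsum (f := fun m ξ => ⟪e m, sol (D c) ξ φ⟫_ℂ • EE m)
    (fun m => Continuous.smul (continuous_const.inner (𝕜 := ℂ) hs) continuous_const) ht fun m ξ => ?_
  rw [norm_smul]
  exact (mul_le_of_le_one_right (norm_nonneg _) (norm_EE_le m)).trans (h m ξ)

lemma dat_e_zero : Dat 0 (e 0) := by
  refine ⟨fun k hk _ => ?_, fun j k hk => ?_⟩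
  · rw [orthonormal_iff_ite.1 orthonormal_e, if_neg hk]
  · rw [orthonormal_iff_ite.1 orthonormal_e, if_neg (sep_zero hk).1]
    simp

lemma VV_ne_zero {c : ℤ → ℂ} (hc : Adm c) (ξ x : ℝ) : VV c (e 0) ξ x ≠ 0 := by
  have h1 := (hasSum_syn_apply (summable_coef hc le_rfl dat_e_zero ξ) x).sub
    (hasSum_ite_eq (0 : ℤ) (1 : ℂ))
  have h2 : ‖VV c (e 0) ξ x - 1‖ ≤ 2 * ∑' k, w k := by
    rw [VV, ← h1.tsum_eq]
    refine tsum_of_norm_bounded (summable_w.hasSum.mul_left 2) fun k => ?_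
    have hw := w_nonneg k
    by_cases hk : k = 0
    · subst hk
      rw [coef_zero hc, orthonormal_iff_ite.1 orthonormal_e, EE_zero]
      simp [hw]
    · rw [if_neg hk, sub_zero, norm_mul, norm_EE_apply, mul_one]
      refine (coef_bound hc le_rfl dat_e_zero ξ hk).trans ?_
      have := norm_e_le 0
      nlinarith
  intro h
  rw [h] at h2
  have := tsum_w_le
  simp only [zero_sub, norm_neg, norm_one] at h2
  linarith

lemma form_VV {c : ℤ → ℂ} (hc : Adm c) {a b : ℝ} (ha : 0 ≤ a) (hb : 0 ≤ b) {φ ψ : HH}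
    (hφ : Dat a φ) (hψ : Dat b ψ) {ξ : ℝ} (hξ : ξ ∈ Icc (0 : ℝ) 1) :
    ⟪ψ, P ξ (sol (D c) ξ φ)⟫_ℂ =
      ∫ x in (0 : ℝ)..ξ, conj (VV (fun m => conj (c m)) ψ x x) * VV c φ x x :=
  form_eq_integral (small_D hc.1) (small_D hc.conj.1) (inner_D_adj hc.one) φ ψ _ _
    (io_VV hc ha hφ) (io_VV hc.conj hb hψ) (continuous_VV hc ha hφ) (continuous_VV hc.conj hb hψ) hξ

end

end Pool.Agent.Work.MP_8e7914_an
end

-- merged part: Pool.Agent.Work.MP_8e7914_an.Cauchy
section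
open MeasureTheory Set Complex ComplexConjugate Filter Topology
open scoped InnerProductSpace BoundedContinuousFunction Real

namespace Pool.Agent.Work.MP_8e7914_an

noncomputable section

/-- the n-th block -/
def Blk (n : ℕ) : Finset ℤ := (Finset.range n).image fun k : ℕ => lam n + k + 1

lemma Blk_sub {n : ℕ} {m : ℤ} (h : m ∈ Blk n) : m ∈ Ext n := by
  rw [Blk, Finset.mem_image] at h
  obtain ⟨k, hk, rfl⟩ := h
  rw [Finset.mem_range] at hk
  rw [Ext, Finset.mem_Icc]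
  omega

/-- partition points -/
def xi (n j : ℕ) : ℝ := j / (2 * (n + 1))

lemma xi_mono (n : ℕ) : Monotone (xi n) := fun i j h => by
  unfold xi
  gcongr

lemma xi_mem {n j : ℕ} (h : j ∈ Finset.range (2 * (n + 1))) : xi n j ∈ Icc (0 : ℝ) 1 := by
  rw [Finset.mem_range] at h
  refine ⟨by unfold xi; positivity, ?_⟩
  rw [xi, div_le_one (by positivity)]
  exact_mod_cast h.le

/-- the alternating sum -/
def GG (K : HH →L[ℂ] HH) (n : ℕ) : ℂ :=
  ∑ j ∈ Finset.range (2 * (n + 1)),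
    (-1) ^ j * ⟪e (lam n + n + 1), P (xi n j) (sol K (xi n j) (e (lam n)))⟫_ℂ

lemma EE_xi (r : ℤ) (n j : ℕ) : EE r (xi n j) = EE r (xi n 1) ^ j := by
  rw [EE_apply, EE_apply, ← Complex.exp_nat_mul, xi, xi]
  congr 1
  push_cast
  ring

lemma neg_one_pow_eq (n j : ℕ) : (-1 : ℂ) ^ j = EE (n + 1) (xi n j) := by
  rw [EE_xi, ← Complex.exp_pi_mul_I, EE_apply, xi]
  congr 2
  have : ((n : ℂ) + 1) ≠ 0 := by exact_mod_cast Nat.succ_ne_zero n
  push_cast
  field_simp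

lemma sum_EE_xi {n : ℕ} {r : ℤ} (h0 : 0 < r) (h1 : r < 2 * (n + 1)) :
    ∑ j ∈ Finset.range (2 * (n + 1)), EE r (xi n j) = 0 := by
  rw [Finset.sum_congr rfl fun j _ => EE_xi r n j]
  have hn : ((n : ℝ) + 1) ≠ 0 := by positivity
  have h2 : EE r (xi n 1) ^ (2 * (n + 1)) = 1 := by
    rw [← EE_xi, ← EE_at_one r, xi]
    congr 1
    push_cast
    field_simp
  have h3 : EE r (xi n 1) - 1 ≠ 0 := by
    rw [sub_ne_zero, EE_apply, Ne, Complex.exp_eq_one_iff]
    rintro ⟨k, hk⟩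
    have hn' : ((n : ℂ) + 1) ≠ 0 := by exact_mod_cast Nat.succ_ne_zero n
    have hpi : (π : ℂ) ≠ 0 := by exact_mod_cast Real.pi_ne_zero
    rw [xi] at hk
    push_cast at hk
    field_simp at hk
    have h4 : r = 2 * (n + 1) * k := by exact_mod_cast hk
    have h5 : 0 < k := by
      by_contra hc
      have : k ≤ 0 := not_lt.1 hc
      nlinarith
    nlinarith
  have h4 := geom_sum_mul (EE r (xi n 1)) (2 * (n + 1))
  rw [h2, sub_self] at h4
  exact (mul_eq_zero.1 h4).resolve_right h3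

lemma term_sum {n k : ℕ} (hk : k < n) :
    ∑ j ∈ Finset.range (2 * (n + 1)), (-1 : ℂ) ^ j *
      (⟪e (lam n + k + 1), P (xi n j) (e (lam n))⟫_ℂ *
        ⟪e (lam n + n + 1), P (xi n j) (e (lam n + k + 1))⟫_ℂ) =
      -((2 * (n + 1) / (4 * π ^ 2 * (k + 1) * (n - k)) : ℝ) : ℂ) := by
  have e1 : lam n - (lam n + k + 1) = -(k + 1) := by ring
  have e2 : lam n + k + 1 - (lam n + n + 1) = k - n := by ring
  have hk1 : ((k : ℂ) + 1) ≠ 0 := by exact_mod_cast Nat.succ_ne_zero k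
  have hkn : ((k : ℂ) - n) ≠ 0 := by
    rw [sub_ne_zero]
    exact_mod_cast hk.ne
  have hnk : ((n : ℂ) - k) ≠ 0 := by
    rw [sub_ne_zero]
    exact_mod_cast hk.ne'
  have hpi : (π : ℂ) ≠ 0 := by exact_mod_cast Real.pi_ne_zero
  have h1 : ∀ j ∈ Finset.range (2 * (n + 1)), (-1 : ℂ) ^ j *
      (⟪e (lam n + k + 1), P (xi n j) (e (lam n))⟫_ℂ *
        ⟪e (lam n + n + 1), P (xi n j) (e (lam n + k + 1))⟫_ℂ) =
      -(1 / (4 * π ^ 2 * (k + 1) * (n - k))) *
        (1 - EE (n - k) (xi n j) - EE (k + 1) (xi n j) + EE (n + 1) (xi n j)) := by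
    intro j hj
    rw [inner_e_P_e (xi_mem hj) (by omega), inner_e_P_e (xi_mem hj) (by omega), e1, e2,
      neg_one_pow_eq n j]
    have a1 : EE (n - k) (xi n j) = EE (n + 1) (xi n j) * EE (-(k + 1)) (xi n j) := by
      rw [← EE_add]; congr 2; ring
    have a2 : EE (k + 1) (xi n j) = EE (n + 1) (xi n j) * EE (k - n) (xi n j) := by
      rw [← EE_add]; congr 2; ring
    have a3 : EE (n + 1) (xi n j) * EE (-(k + 1)) (xi n j) * EE (k - n) (xi n j) = 1 := by
      rw [← EE_add, ← EE_add, ← EE_zero (xi n j)]; congr 2; ring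
    rw [a1, a2]
    generalize EE (n + 1) (xi n j) = A at a3 ⊢
    generalize EE (-(k + 1)) (xi n j) = B at a3 ⊢
    generalize EE (k - n) (xi n j) = C at a3 ⊢
    have a4 : (1 - A * B - A * C + A) = A * ((B - 1) * (C - 1)) := by linear_combination -a3
    have a5 : (2 * π * I * ((-(k + 1) : ℤ) : ℂ)) * (2 * π * I * ((k - n : ℤ) : ℂ)) =
        -(4 * π ^ 2 * (k + 1) * (n - k)) := by
      push_cast
      linear_combination (4 * π ^ 2 * (k + 1) * (n - k) : ℂ) * I_sq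
    rw [a4, div_mul_div_comm, a5]
    field_simp
  rw [Finset.sum_congr rfl h1, ← Finset.mul_sum, Finset.sum_add_distrib, Finset.sum_sub_distrib,
    Finset.sum_sub_distrib, sum_EE_xi (by omega) (by omega), sum_EE_xi (by omega) (by omega),
    sum_EE_xi (by omega) (by omega)]
  simp only [Finset.sum_const, Finset.card_range, nsmul_eq_mul]
  push_cast
  field_simp
  ring

lemma hasDerivAt_inv {X : HH →L[ℂ] HH} (hX : ‖X‖ ≤ 1) {c : ℂ} (hc : ‖c‖ < 1) :
    HasDerivAt (fun c : ℂ => Ring.inverse (1 + c • X))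
      (-(Ring.inverse (1 + c • X) * X * Ring.inverse (1 + c • X))) c := by
  have hu : IsUnit (1 + c • X) := by
    apply isUnit_one_add
    rw [norm_smul]
    exact (mul_le_of_le_one_right (norm_nonneg _) hX).trans_lt hc
  obtain ⟨u, hu⟩ := hu
  have h1 : HasDerivAt (fun c : ℂ => 1 + c • X) X c := by
    simpa using ((hasDerivAt_id c).smul_const X).const_add 1
  have h2 := hasFDerivAt_ringInverse (𝕜 := ℂ) u
  rw [hu] at h2
  have h3 := h2.comp_hasDerivAt c h1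
  refine HasDerivAt.congr_deriv h3 ?_
  rw [← hu, Ring.inverse_unit]
  simp

lemma hasDerivAt_term {Q : HH →L[ℂ] HH} (hQ : ‖Q‖ ≤ 1) (ξ : ℝ) (φ ψ : HH) {c : ℂ} (hc : ‖c‖ < 1) :
    HasDerivAt (fun c : ℂ => ⟪ψ, P ξ (sol (c • Q) ξ φ)⟫_ℂ)
      (-⟪ψ, P ξ (sol (c • Q) ξ (Q (P ξ (sol (c • Q) ξ φ))))⟫_ℂ) c := by
  have hX : ‖Q * P ξ‖ ≤ 1 :=
    (norm_mul_le _ _).trans (mul_le_one₀ hQ (norm_nonneg _) (opNorm_P_le ξ))
  let L : (HH →L[ℂ] HH) →L[ℂ] ℂ :=
    (innerSL ℂ ψ) ∘L (P ξ) ∘L (ContinuousLinearMap.apply ℂ HH φ)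
  have h1 := L.hasFDerivAt.comp_hasDerivAt c (hasDerivAt_inv hX hc)
  simp only [sol, smul_mul_assoc]
  refine HasDerivAt.congr_deriv h1 ?_
  simp [L]

lemma opNorm_D_ind (A : Finset ℤ) : ‖D (ind A)‖ ≤ 1 :=
  ContinuousLinearMap.opNorm_le_bound _ zero_le_one
    (norm_D_le zero_le_one le_rfl (norm_ind_le A))

lemma differentiableAt_GG (n : ℕ) {c : ℂ} (hc : ‖c‖ < 1) :
    DifferentiableAt ℂ (fun c : ℂ => GG (c • D (ind (Blk n))) n) c := by
  unfold GG
  refine DifferentiableAt.fun_sum fun j _ => DifferentiableAt.const_mul ?_ _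
  exact (hasDerivAt_term (opNorm_D_ind _) _ _ _ hc).differentiableAt

lemma hasDerivAt_GG (n : ℕ) :
    HasDerivAt (fun c : ℂ => GG (c • D (ind (Blk n))) n)
      ((∑ k ∈ Finset.range n, 2 * (n + 1) / (4 * π ^ 2 * (k + 1) * (n - k)) : ℝ) : ℂ) 0 := by
  unfold GG
  have h1 := HasDerivAt.fun_sum (u := Finset.range (2 * (n + 1))) fun j _ =>
    (hasDerivAt_term (opNorm_D_ind (Blk n)) (xi n j) (e (lam n)) (e (lam n + n + 1))
      (c := 0) (by simp)).const_mul ((-1 : ℂ) ^ j)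
  refine HasDerivAt.congr_deriv h1 ?_
  have hs : ∀ ξ φ, sol ((0 : ℂ) • D (ind (Blk n))) ξ φ = φ := by
    intro ξ φ
    simp [sol]
  simp only [hs, D_ind, map_sum, map_smul, inner_sum, inner_smul_right]
  have hinj : Set.InjOn (fun k : ℕ => lam n + k + 1) (Finset.range n : Set ℕ) := by
    intro a _ b _ h
    simp only at h
    omega
  simp only [Blk, Finset.sum_image hinj, mul_neg, Finset.mul_sum, Finset.sum_neg_distrib]
  rw [Finset.sum_comm, ← Finset.sum_neg_distrib, Complex.ofReal_sum]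
  refine Finset.sum_congr rfl fun k hk => ?_
  rw [term_sum (Finset.mem_range.1 hk), neg_neg]

lemma exists_gamma (n : ℕ) : ∃ γ : ℂ, ‖γ‖ ≤ 1 / 2 ∧
    (∑ k ∈ Finset.range n, 1 / ((k : ℝ) + 1)) / 50 ≤ ‖GG (γ • D (ind (Blk n))) n‖ := by
  by_contra hcon
  push Not at hcon
  set H : ℝ := ∑ k ∈ Finset.range n, 1 / ((k : ℝ) + 1) with hH
  have hpos : 0 < H := by
    have := hcon 0 (by simp)
    have h2 := norm_nonneg (GG ((0 : ℂ) • D (ind (Blk n))) n)
    linarith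
  have hd : DiffContOnCl ℂ (fun c : ℂ => GG (c • D (ind (Blk n))) n) (Metric.ball 0 (1 / 2)) := by
    apply DifferentiableOn.diffContOnCl
    intro c hc
    rw [closure_ball _ (by norm_num), mem_closedBall_zero_iff] at hc
    exact (differentiableAt_GG n (by linarith)).differentiableWithinAt
  have h1 := Complex.norm_deriv_le_of_forall_mem_sphere_norm_le (by norm_num) hd (C := H / 50)
    (fun z hz => (hcon z (mem_sphere_zero_iff_norm.1 hz).le).le)
  rw [(hasDerivAt_GG n).deriv, Complex.norm_real] at h1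
  have h2 : H / 20 ≤ ∑ k ∈ Finset.range n, 2 * ((n : ℝ) + 1) / (4 * π ^ 2 * (k + 1) * (n - k)) := by
    rw [hH, Finset.sum_div]
    refine Finset.sum_le_sum fun k hk => ?_
    have hk' : (k : ℝ) < n := by exact_mod_cast Finset.mem_range.1 hk
    have hk0 : (0 : ℝ) ≤ k := Nat.cast_nonneg k
    have hpi := Real.pi_lt_d2
    have hpi0 := Real.pi_pos
    have hpi2 : π ^ 2 ≤ 10 := by nlinarith
    have hnk : 0 < (n : ℝ) - k := by linarith
    rw [div_div, div_le_div_iff₀ (by positivity) (by positivity)]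
    have a1 : π ^ 2 * (n - k) ≤ 10 * (n + 1) := mul_le_mul hpi2 (by linarith) hnk.le (by norm_num)
    nlinarith
  have h3 := le_abs_self (∑ k ∈ Finset.range n, 2 * ((n : ℝ) + 1) / (4 * π ^ 2 * (k + 1) * (n - k)))
  rw [Real.norm_eq_abs] at h1
  linarith

end

end Pool.Agent.Work.MP_8e7914_an
end

-- merged part: Pool.Agent.Work.MP_8e7914_an.Main
section
open MeasureTheory Set Complex ComplexConjugate Filter Topology
open scoped InnerProductSpace BoundedContinuousFunction Real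

namespace Pool.Agent.Work.MP_8e7914_an

noncomputable section

def gam (n : ℕ) : ℂ := (exists_gamma n).choose

lemma norm_gam (n : ℕ) : ‖gam n‖ ≤ 1 / 2 := (exists_gamma n).choose_spec.1

lemma gam_spec (n : ℕ) :
    (∑ k ∈ Finset.range n, 1 / ((k : ℝ) + 1)) / 50 ≤ ‖GG (gam n • D (ind (Blk n))) n‖ :=
  (exists_gamma n).choose_spec.2

open Classical in
/-- the Fourier multiplier of K -/
def cc (m : ℤ) : ℂ := if h : ∃ n, m ∈ Blk n then gam h.choose else 0

def cn (n : ℕ) (m : ℤ) : ℂ := gam n * ind (Blk n) m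

lemma adm_cc : Adm cc := by
  refine ⟨fun m => ?_, fun k hk => ?_⟩
  · unfold cc
    split_ifs
    · exact norm_gam _
    · simp
  · rw [cc, dif_neg]
    rintro ⟨n, hn⟩
    exact hk n (Blk_sub hn)

lemma cc_eq {n : ℕ} {m : ℤ} (hm : m ∈ Ext n) : cc m = cn n m := by
  unfold cc cn ind
  by_cases h : ∃ j, m ∈ Blk j
  · have h1 : h.choose = n := Ext_unique (Blk_sub h.choose_spec) hm
    have h2 : m ∈ Blk n := h1 ▸ h.choose_spec
    rw [dif_pos h, if_pos h2, h1, mul_one]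
  · rw [dif_neg h, if_neg (fun h2 => h ⟨n, h2⟩), mul_zero]

lemma cn_zero {n : ℕ} {m : ℤ} (hm : m ∉ Ext n) : cn n m = 0 := by
  rw [cn, ind, if_neg (fun h => hm (Blk_sub h)), mul_zero]

lemma adm_cn (n : ℕ) : Adm (cn n) := by
  refine ⟨fun m => ?_, fun k hk => cn_zero (hk n)⟩
  rw [cn, norm_mul]
  exact (mul_le_of_le_one_right (norm_nonneg _) (norm_ind_le _ _)).trans (norm_gam n)

lemma D_cn (n : ℕ) : D (cn n) = gam n • D (ind (Blk n)) := by
  ext1 f
  apply ext_e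
  intro m
  rw [inner_D (adm_cn n).one, smul_apply, inner_smul_right, inner_D (norm_ind_le _), cn, mul_assoc]

lemma compare (n : ℕ) (ξ : ℝ) :
    ‖⟪e (lam n + n + 1), P ξ (sol (D cc) ξ (e (lam n)))⟫_ℂ -
      ⟪e (lam n + n + 1), P ξ (sol (D (cn n)) ξ (e (lam n)))⟫_ℂ‖ ≤ 2 * ((n + 2) * del n) := by
  have h1 := key_identity (small_D adm_cc.1) (small_D (adm_cn n).conj.1)
    (inner_D_adj (adm_cn n).one) ξ ξ (e (lam n)) (e (lam n + n + 1))
  have h2 := key_identity (small_D (adm_cn n).1) (small_D (adm_cn n).conj.1)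
    (inner_D_adj (adm_cn n).one) ξ ξ (e (lam n)) (e (lam n + n + 1))
  simp only [sub_self, zero_apply, inner_zero_right, sub_zero, zero_add] at h1 h2
  rw [h1, h2, sub_sub_cancel_left, norm_neg]
  set w := sol (D fun m => conj (cn n m)) ξ (e (lam n + n + 1)) with hw
  set v := sol (D cc) ξ (e (lam n)) with hv
  set g := (D cc - D (cn n)) (P ξ v) with hg
  have hgi : ∀ k, ⟪e k, g⟫_ℂ = (cc k - cn n k) * ⟪e k, P ξ v⟫_ℂ := by
    intro k
    rw [hg, sub_apply, inner_sub_right, inner_D adm_cc.one, inner_D (adm_cn n).one, sub_mul]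
  have hoff : Off n g := by
    intro k _ hk
    rw [hgi]
    by_cases hkn : k ∈ Ext n
    · rw [cc_eq hkn, sub_self, zero_mul]
    · have hall : ∀ j, k ∉ Ext j := fun j => by
        by_cases hj : j = n
        · rwa [hj]
        · exact hk j hj
      rw [adm_cc.2 k hall, cn_zero hkn, sub_self, zero_mul]
  have hgn : ‖g‖ ≤ 1 := by
    have a1 : ‖g‖ ≤ 1 / 2 * ‖P ξ v‖ := by
      apply norm_le_of_coef (by norm_num)
      intro k
      rw [hgi, norm_mul]
      refine mul_le_mul_of_nonneg_right ?_ (norm_nonneg _)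
      by_cases hkn : k ∈ Ext n
      · rw [cc_eq hkn, sub_self, norm_zero]; norm_num
      · rw [cn_zero hkn, sub_zero]; exact adm_cc.1 k
    have a2 := norm_P_le ξ v
    have a3 : ‖v‖ ≤ 2 * ‖e (lam n)‖ := norm_sol_le (small_D adm_cc.1) ξ _
    have a4 := norm_e_le (lam n)
    linarith
  have hwn : ‖w‖ ≤ 2 := by
    have a3 : ‖w‖ ≤ 2 * ‖e (lam n + n + 1)‖ := norm_sol_le (small_D (adm_cn n).conj.1) ξ _
    have a4 := norm_e_le (lam n + n + 1)
    linarith
  have hwQ : D (fun m => conj (ind (Ext n) m)) w = w := by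
    apply ext_e
    intro k
    rw [inner_D (fun m => by simpa using norm_ind_le (Ext n) m)]
    by_cases hkn : k ∈ Ext n
    · simp [ind, hkn]
    · have hne : k ≠ lam n + n + 1 := by
        rintro rfl
        apply hkn
        rw [Ext, Finset.mem_Icc]
        omega
      rw [hw, inner_sol (adm_cn n).conj, cn_zero hkn, orthonormal_iff_ite.1 orthonormal_e,
        if_neg hne]
      simp
  rw [inner_P, ← hwQ, inner_D_adj (norm_ind_le _)]
  refine (norm_inner_le_norm _ _).trans (mul_le_mul hwn ((norm_proj_off hoff ξ).trans ?_)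
    (norm_nonneg _) (by norm_num))
  have := del_pos n
  exact mul_le_mul_of_nonneg_left (mul_le_of_le_one_right this.le hgn) (by positivity)

lemma GG_lower (n : ℕ) :
    (∑ k ∈ Finset.range n, 1 / ((k : ℝ) + 1)) / 50 - 1 ≤ ‖GG (D cc) n‖ := by
  have h1 := gam_spec n
  rw [← D_cn] at h1
  have h2 : ‖GG (D cc) n - GG (D (cn n)) n‖ ≤ 1 := by
    rw [GG, GG, ← Finset.sum_sub_distrib]
    refine (norm_sum_le _ _).trans ((Finset.sum_le_card_nsmul _ _ (2 * ((n + 2) * del n))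
      fun j _ => ?_).trans ?_)
    · rw [← mul_sub, norm_mul, norm_pow, norm_neg, norm_one, one_pow, one_mul]
      exact compare n _
    · rw [Finset.card_range, nsmul_eq_mul]
      have a1 := sq_del_le n
      have a2 : (1 / 4 : ℝ) ^ (n + 1) ≤ 1 / 4 := by
        rw [pow_succ]
        exact mul_le_of_le_one_left (by norm_num) (pow_le_one₀ (by norm_num) (by norm_num))
      have a3 : 0 ≤ ((n : ℝ) + 2) * del n := by have := del_pos n; positivity
      push_cast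
      nlinarith
  have h3 := norm_sub_norm_le (GG (D (cn n)) n) (GG (D cc) n)
  rw [norm_sub_rev] at h3
  linarith

lemma no_factor (Sm Sp : HH ≃L[ℂ] HH)
    (hp : ∀ ξ ∈ Icc (0 : ℝ) 1, ∀ f, P ξ f = f → P ξ (Sp.symm f) = Sp.symm f)
    (hm : ∀ ξ ∈ Icc (0 : ℝ) 1, ∀ f, P ξ f = 0 → P ξ (Sm f) = 0)
    (hS : ∀ f, (1 + D cc) f = Sm (Sp f)) : False := by
  have hR : ∀ ξ ∈ Icc (0 : ℝ) 1, ∀ h, P ξ (sol (D cc) ξ h) = Sp.symm (P ξ (Sm.symm h)) := by
    intro ξ hξ h
    refine (sol_unique (small_D adm_cc.1) (hp ξ hξ _ (P_P _ _)) ?_).symm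
    rw [hS, ContinuousLinearEquiv.apply_symm_apply]
    have h1 := hm ξ hξ (Sm.symm h - P ξ (Sm.symm h)) (by rw [map_sub, P_P, sub_self])
    rw [map_sub, map_sub, ContinuousLinearEquiv.apply_symm_apply, sub_eq_zero] at h1
    exact h1.symm
  set A : HH →L[ℂ] HH := (Sp.symm : HH →L[ℂ] HH)
  set C : HH →L[ℂ] HH := (Sm.symm : HH →L[ℂ] HH)
  have hb : ∀ n, ‖GG (D cc) n‖ ≤ ‖A‖ * ‖C‖ := by
    intro n
    have h1 : GG (D cc) n = ⟪e (lam n + n + 1),
        A (∑ j ∈ Finset.range (2 * (n + 1)), (-1 : ℂ) ^ j • P (xi n j) (C (e (lam n))))⟫_ℂ := by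
      rw [GG, map_sum, inner_sum]
      refine Finset.sum_congr rfl fun j hj => ?_
      rw [map_smul, inner_smul_right, hR _ (xi_mem hj)]
      rfl
    rw [h1]
    refine (norm_inner_e_le _ _).trans ((A.le_opNorm _).trans ?_)
    refine mul_le_mul_of_nonneg_left ((norm_alt_P _ (xi_mono n) _ _).trans ?_) (norm_nonneg _)
    exact (C.le_opNorm _).trans (mul_le_of_le_one_right (norm_nonneg _) (norm_e_le _))
  obtain ⟨n, hn⟩ := (Real.tendsto_sum_range_one_div_nat_succ_atTop.eventually_gt_atTop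
    (50 * (‖A‖ * ‖C‖ + 1))).exists
  have := GG_lower n
  have := hb n
  linarith

/-- coefficients of the continuous part of the kernel -/
def dd (m : ℤ) : ℂ := cc m / (2 * π * I * m)

lemma norm_dd {j : ℕ} {k : ℤ} (h : k ∈ Ext j) : ‖dd k‖ ≤ del j := by
  refine le_trans ?_ (sep_zero h).2
  have hpos : 0 < |(k : ℝ)| := by
    rw [abs_pos]
    exact_mod_cast (sep_zero h).1
  rw [dd, norm_div, norm_two_pi_I_mul, div_le_div_iff₀ (by positivity) hpos]
  have := adm_cc.1 k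
  have := Real.pi_gt_three
  nlinarith

lemma dd_zero {k : ℤ} (h : ∀ j, k ∉ Ext j) : dd k = 0 := by
  rw [dd, adm_cc.2 k h, zero_div]

lemma summable_dd : Summable fun m => ‖dd m‖ := by
  refine Summable.of_nonneg_of_le (fun _ => norm_nonneg _) (fun k => ?_) summable_w
  by_cases hj : ∃ j, k ∈ Ext j
  · obtain ⟨j, hj⟩ := hj
    exact (norm_dd hj).trans (del_le_w hj)
  · rw [dd_zero (fun j h => hj ⟨j, h⟩), norm_zero]
    exact w_nonneg k

def sig : BB := syn dd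

/-- the kernel s -/
def ss (x : ℝ) : ℂ := (if 0 < x then 1 else 0) + sig x

def MM : BB := EE 0 + sig

/-- t ↦ conj (sig (x - t)) -/
def AA (x : ℝ) : BB := syn fun m => conj (dd m) * EE (-m) x

lemma summable_AA (x : ℝ) : Summable fun m => ‖conj (dd m) * EE (-m) x‖ := by
  simpa only [norm_mul, norm_EE_apply, mul_one, Complex.norm_conj] using summable_dd

lemma conj_AA (x t : ℝ) : conj (AA x t) = sig (x - t) := by
  have h1 := (hasSum_syn_apply (summable_AA x) t).mapL (conjCLE : ℂ →L[ℝ] ℂ)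
  have h2 := hasSum_syn_apply summable_dd (x - t)
  refine HasSum.unique h1 ?_
  have : (fun m => (conjCLE : ℂ →L[ℝ] ℂ) (conj (dd m) * EE (-m) x * EE m t)) =
      fun m => dd m * EE m (x - t) := by
    funext m
    simp only [ContinuousLinearEquiv.coe_coe, conjCLE_apply, map_mul, Complex.conj_conj, conj_EE,
      neg_neg, EE_sub_arg, mul_assoc]
  rw [this]
  exact h2

lemma ss_pos {x : ℝ} (hx : 0 < x) : ss x = MM x := by
  simp [ss, MM, hx, EE_zero]

lemma ss_neg {x : ℝ} (hx : 0 < x) : ss (-x) = conj (AA 0 x) := by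
  rw [conj_AA, zero_sub, ss, if_neg (by linarith), zero_add]

lemma dat_MM : Dat 1 (io MM) := by
  have h : ∀ k, ⟪e k, io MM⟫_ℂ = (if k = 0 then 1 else 0) + dd k := by
    intro k
    rw [MM, map_add, inner_add_right, sig, inner_e_syn summable_dd]
    congr 1
    exact orthonormal_iff_ite.1 orthonormal_e k 0
  refine ⟨fun k hk hall => ?_, fun j k hk => ?_⟩
  · rw [h, if_neg hk, dd_zero hall, add_zero]
  · rw [h, if_neg (sep_zero hk).1, zero_add, one_mul]
    exact norm_dd hk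

lemma dat_AA : Dat 1 (io (-AA 0)) := by
  have h : ∀ k, ⟪e k, io (-AA 0)⟫_ℂ = -conj (dd k) := by
    intro k
    rw [map_neg, inner_neg_right, AA, inner_e_syn (summable_AA 0), EE_at_zero, mul_one]
  refine ⟨fun k _ hall => ?_, fun j k hk => ?_⟩
  · rw [h, dd_zero hall]
    simp
  · rw [h, norm_neg, Complex.norm_conj, one_mul]
    exact norm_dd hk

lemma integral_eq_inner {ξ : ℝ} (hξ : ξ ∈ Icc (0 : ℝ) 1) (f : HH) :
    ∫ y in (0 : ℝ)..ξ, f y = ⟪e 0, P ξ f⟫_ℂ := by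
  rw [e, inner_io_P hξ]
  simp [EE_zero]

lemma conv_identity (f : HH) {x : ℝ} (hx : x ∈ Icc (0 : ℝ) 1) :
    (∫ y in (0 : ℝ)..x, ((1 + D cc) f) y) =
      (∫ t in (0 : ℝ)..1, ss (x - t) * f t) - ∫ t in (0 : ℝ)..1, ss (-t) * f t := by
  have h01 : (1 : ℝ) ∈ Icc (0 : ℝ) 1 := by simp
  have h1 : ∫ t in (0 : ℝ)..1, ss (x - t) * f t = ⟪P x (e 0) + io (AA x), f⟫_ℂ := by
    conv_rhs => rw [← P_one f]
    rw [inner_P_eq_integral h01]
    apply integral_congr_mu h01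
    filter_upwards [Lp.coeFn_add (P x (e 0)) (io (AA x)), coe_P x (e 0), coe_io (AA x),
      coe_io (EE 0)] with t a1 a2 a3 a4
    rw [a1, Pi.add_apply, a2, a3, map_add, conj_AA, ss]
    by_cases ht : t < x
    · rw [indicator_of_mem (show t ∈ Iio x from ht), if_pos (sub_pos.2 ht), e, a4, EE_zero, map_one]
    · rw [indicator_of_notMem (show t ∉ Iio x from ht), if_neg (by linarith), map_zero]
  have h2 : ∫ t in (0 : ℝ)..1, ss (-t) * f t = ⟪io (AA 0), f⟫_ℂ := by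
    conv_rhs => rw [← P_one f]
    rw [inner_io_P h01]
    apply integral_congr_mu h01
    filter_upwards [ae_restrict_mem measurableSet_Ioo] with t ht
    rw [ss_neg ht.1]
  have h3 : D (fun m => conj (cc m)) (P x (e 0)) = io (AA x) - io (AA 0) := by
    apply ext_e
    intro m
    rw [inner_D adm_cc.conj.one, inner_sub_right, AA, AA, inner_e_syn (summable_AA x),
      inner_e_syn (summable_AA 0), EE_at_zero]
    by_cases hm : m = 0
    · subst hm
      rw [adm_cc.2 0 zero_notMem_Ext, dd_zero zero_notMem_Ext]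
      simp
    · rw [inner_e_P_e hx hm, zero_sub, dd]
      simp only [map_div₀, map_mul, Complex.conj_ofReal, Complex.conj_I, map_intCast, map_ofNat]
      push_cast
      ring
  rw [h1, h2, integral_eq_inner hx, add_apply, one_apply_eq_self, map_add, inner_add_right,
    ← inner_P x (e 0) (D cc f), ← inner_D_adj adm_cc.one, h3, inner_add_left, inner_sub_left,
    inner_P]
  ring

lemma rank_one (p q : Fin 2 → ℂ) (hp : p 1 ≠ 0) (hq : q 0 ≠ 0) :
    (Matrix.of fun i j => q j * p i).rank = 1 := by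
  have h1 : (Matrix.of fun i j => q j * p i) = Matrix.vecMulVec p q := by
    ext i j
    simp [Matrix.vecMulVec_apply, mul_comm]
  rw [h1]
  refine le_antisymm (Matrix.rank_vecMulVec_le p q) (Nat.one_le_iff_ne_zero.2 fun h => ?_)
  rw [Matrix.rank, Submodule.finrank_eq_zero, LinearMap.range_eq_bot] at h
  have h2 := congrFun (LinearMap.congr_fun h (Pi.single 0 1)) 1
  simp [Matrix.vecMulVec_apply, hp, hq] at h2

end

end Pool.Agent.Work.MP_8e7914_an
end
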